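import Pool.Agent.MP_df844f_gt.SpecW

/-! A finite convex set of chambers is a gadget for each of its subsets. -/

namespace Pool.Agent.MP_df844f_gt

open PS

namespace GCvx

theorem walk (hs : SP1S) {K : Finset W} (hK : Cvx (K : Set W)) {b b' : W} (hb : b ∈ K)
    (hbb : Close b b') : ∀ (n : ℕ) (a : W) (ha : a ∈ K) (a' : W), d b a = n → Close a a' →
      ∃ ch, (cvxPS K).TW tt ⟨⟨a, ha⟩, a, a'⟩ ⟨⟨b, hb⟩, b, b'⟩ (d a' b') ch := by
  intro n
  induction n with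
  | zero =>
    intro a ha a' h haa
    obtain rfl : b = a := d_eq_zero.1 h
    exact ⟨[], TW.stay (Y := cvxPS K) (n := ⟨⟨b, ha⟩, b, a'⟩) (n' := ⟨⟨b, hb⟩, b, b'⟩) haa
      trivial rfl rfl (TW.nil _ hbb trivial)⟩
  | succ n ih =>
    intro a ha a' h haa
    have hne : a ≠ b := by
      rintro rfl
      rw [d_self] at h
      omega
    obtain ⟨s, hd⟩ := exists_desc hne
    have hu : g s * a ∈ K := hK b hb a ha _ hd.btw
    obtain ⟨m, hm⟩ := exists_med a' b' (g s * a)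
    have hc : Close (g s * a) m := hs a _ b a' b' m hd.btw.symm haa hbb hm
    obtain ⟨ch, hch⟩ := ih (g s * a) hu m (by have := hd.d_eq; omega) hc
    exact ⟨_, (TW.edge (Y := cvxPS K) (n := ⟨⟨a, ha⟩, a, a'⟩)
      (n' := ⟨⟨g s * a, hu⟩, g s * a, m⟩) s haa trivial rfl rfl hch).cast hm.btw12⟩

theorem conn {K : Finset W} (hK : Cvx (K : Set W)) : (cvxPS K).Conn := by
  intro T ψ he _ x y
  obtain ⟨b, hb⟩ := y
  have key : ∀ (n : ℕ) (a : W) (ha : a ∈ K), d b a = n → ψ ⟨a, ha⟩ = ψ ⟨b, hb⟩ := by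
    intro n
    induction n with
    | zero =>
      intro a ha h
      obtain rfl : b = a := d_eq_zero.1 h
      rfl
    | succ n ih =>
      intro a ha h
      have hne : a ≠ b := by
        rintro rfl
        rw [d_self] at h
        omega
      obtain ⟨s, hd⟩ := exists_desc hne
      have hu : g s * a ∈ K := hK b hb a ha _ hd.btw
      exact (he s ⟨a, ha⟩ ⟨g s * a, hu⟩ rfl).trans (ih _ hu (by have := hd.d_eq; omega))
  exact key _ x.1 x.2 rfl

theorem cob (h1 : H1S) {K : Finset W} (hK : Cvx (K : Set W)) (c : (cvxPS K).Coch Unit)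
    (hc : Cocyc c) : Cobd c := by
  classical
  let c' : S → W → F2 := fun s x =>
    if h : x ∈ K ∧ g s * x ∈ K then c (.edge s ⟨x, h.1⟩ ⟨g s * x, h.2⟩) () else 0
  have key : ∀ (s : S) (x y : (cvxPS K).Om), (cvxPS K).e s x y →
      c' s x.1 = c (.edge s x y) () := by
    rintro s ⟨x, hx⟩ ⟨y, hy⟩ h
    obtain rfl : y = g s * x := h
    exact dif_pos ⟨hx, hy⟩
  have sy : ∀ (s : S) (x y : (cvxPS K).Om), (cvxPS K).e s x y → c' s y.1 = c' s x.1 := by
    intro s x y h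
    rw [key s x y h, key s y x ((cvxPS K).e_symm h)]
    exact hc.symm s x y () h
  obtain ⟨φ, hφ⟩ := h1 K hK c' (fun s x hx hy => sy s ⟨x, hx⟩ ⟨_, hy⟩ rfl) (by
    intro s t x hst h0 h1 h3 h2
    have e0 : (cvxPS K).e s ⟨x, h0⟩ ⟨_, h1⟩ := rfl
    have e1 : (cvxPS K).e t ⟨_, h1⟩ ⟨_, h2⟩ := by
      change g s * (g t * x) = g t * (g s * x)
      rw [← mul_assoc, g_comm hst, mul_assoc]
    have e2 : (cvxPS K).e s ⟨_, h3⟩ ⟨_, h2⟩ := rfl
    have e3 : (cvxPS K).e t ⟨x, h0⟩ ⟨_, h3⟩ := rfl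
    have h := hc.sq s t _ _ _ _ () hst e0 e1 ((cvxPS K).e_symm e2) ((cvxPS K).e_symm e3)
    have k0 := key s _ _ e0
    have k1 := key t _ _ e1
    have k2 := (sy s _ _ e2).symm.trans (key s _ _ ((cvxPS K).e_symm e2))
    have k3 := (sy t _ _ e3).symm.trans (key t _ _ ((cvxPS K).e_symm e3))
    rw [k0, k1, k2, k3, ← h]
    ring)
  refine ⟨fun x _ => φ x.1, fun s x y ε h => ?_, fun a => a.elim⟩
  have hy : y.1 = g s * x.1 := h
  rw [← key s x y h, hφ s x.1 x.2 (hy ▸ y.2), hy]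

end GCvx

theorem gcvx (h1 : H1S) (hs : SP1S) : GCvxS := by
  classical
  rintro K F hK hF ⟨x0, hx0⟩
  let ι : W → (cvxPS K).Om := fun a => if h : a ∈ K then ⟨a, h⟩ else ⟨x0, hx0⟩
  have hι : ∀ a (ha : a ∈ F), ι a = ⟨a, hF ha⟩ := fun a ha => dif_pos (hF ha)
  refine ⟨ι, fun a ha => ?_, fun a ha s hs' => ?_, GCvx.cob h1 hK, GCvx.conn hK,
    fun a ha b hb a' b' haa hbb => ?_⟩
  · rw [hι a ha]
    rfl
  · rw [hι a ha, hι _ hs']
    rfl
  · rw [hι a ha, hι b hb]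
    exact GCvx.walk hs hK (hF hb) hbb _ a (hF ha) a' rfl haa

end Pool.Agent.MP_df844f_gt
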