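import Pool.Agent.MP_df844f_gt.SpecW

/-! Close chambers are at bounded distance. -/

namespace Pool.Agent.MP_df844f_gt

namespace CloseD

/-- A finite set with a strict order whose incomparable pairs cross. -/
theorem mirsky {α : Type} [DecidableEq α] (cr lt : α → α → Prop) (P0 : Finset α)
    (hirr : ∀ a, ¬ lt a a) (htr : ∀ a b c, lt a b → lt b c → lt a c) (hself : ∀ a, ¬ cr a a)
    (htri : ∀ a ∈ P0, ∀ b ∈ P0, a ≠ b → cr a b ∨ lt a b ∨ lt b a)
    (hn : ∀ a b, lt a b → ¬ cr a b ∧ ¬ cr b a)
    (h4 : ∀ C : Finset α, (∀ r ∈ C, ∀ q ∈ C, r ≠ q → cr r q) → C.card ≤ 3) (n : ℕ) :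
    ∀ P ⊆ P0, (∀ C ⊆ P, (∀ r ∈ C, ∀ q ∈ C, ¬ cr r q) → C.card ≤ n) → P.card ≤ 3 * n := by
  classical
  induction n with
  | zero =>
    intro P _ h
    rcases P.eq_empty_or_nonempty with rfl | ⟨a, ha⟩
    · simp
    · have := h {a} (by simpa using ha) (by simpa using hself a)
      simp at this
  | succ n ih =>
    intro P hP h
    have hA : (P.filter fun r => ∀ q ∈ P, ¬ lt q r).card ≤ 3 := h4 _ fun r hr q hq hne => by
      rw [Finset.mem_filter] at hr hq
      rcases htri r (hP hr.1) q (hP hq.1) hne with h1 | h1 | h1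
      · exact h1
      · exact absurd h1 (hq.2 r hr.1)
      · exact absurd h1 (hr.2 q hq.1)
    have hB : (P.filter fun r => ¬ ∀ q ∈ P, ¬ lt q r).card ≤ 3 * n :=
      ih _ ((Finset.filter_subset _ _).trans hP) fun C hC hc => by
        rcases C.eq_empty_or_nonempty with rfl | hne
        · simp
        obtain ⟨c0, h0, hm⟩ := C.exists_min_image (fun r => (P.filter fun q => lt q r).card) hne
        have hCP : C ⊆ P := hC.trans (Finset.filter_subset _ _)
        have h1 := (Finset.mem_filter.1 (hC h0)).2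
        push Not at h1
        obtain ⟨a, ha, hac⟩ := h1
        have h2 : ∀ c ∈ C, lt a c := fun c hcC => by
          by_cases e : c0 = c
          · exact e ▸ hac
          rcases htri c0 (hP (hCP h0)) c (hP (hCP hcC)) e with h3 | h3 | h3
          · exact absurd h3 (hc _ h0 _ hcC)
          · exact htr _ _ _ hac h3
          · refine absurd (hm c hcC) (not_le.2 (Finset.card_lt_card ⟨fun q hq => ?_, fun hs => ?_⟩))
            · rw [Finset.mem_filter] at hq ⊢
              exact ⟨hq.1, htr _ _ _ hq.2 h3⟩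
            · exact hirr c (Finset.mem_filter.1 (hs (Finset.mem_filter.2 ⟨hCP hcC, h3⟩))).2
        have h5 := h (insert a C) (Finset.insert_subset ha hCP) fun r hr q hq => by
          rcases Finset.mem_insert.1 hr with e1 | hr1 <;>
            rcases Finset.mem_insert.1 hq with e2 | hq1
          · rw [e1, e2]
            exact hself _
          · rw [e1]
            exact (hn _ _ (h2 _ hq1)).1
          · rw [e2]
            exact (hn _ _ (h2 _ hr1)).2
          · exact hc _ hr1 _ hq1
        rw [Finset.card_insert_of_notMem fun k => hirr a (h2 a k)] at h5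
        omega
    have := Finset.card_filter_add_card_filter_not (s := P) fun r => ∀ q ∈ P, ¬ lt q r
    omega

/-- The far side of `q` lies in the far side of `r`. -/
def Le (x r q : W) : Prop := ∀ z, q ∈ Sep x z → r ∈ Sep x z

theorem anti {x r q : W} (h1 : Le x r q) (h2 : Le x q r) :
    ∀ n z, d x z = n → r ∈ Sep x z → r = q := by
  intro n
  induction n with
  | zero =>
    intro z hz hr
    rw [← d_eq_zero.1 hz, Sep_self] at hr
    simp at hr
  | succ n ih =>
    intro z hz hr
    obtain ⟨s, hs⟩ := exists_desc (b := x) (x := z) fun e => by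
      rw [e, d_self] at hz
      omega
    have hd := hs.d_eq
    by_cases h : r ∈ Sep x (g s * z)
    · exact ih _ (by omega) h
    · have h' : q ∉ Sep x (g s * z) := fun k => h (h1 _ k)
      have hq := h2 _ hr
      rw [mem_Sep_step] at h h'
      have e1 : r = wall s z := by tauto
      have e2 : q = wall s z := by tauto
      rw [e1, e2]

theorem comp {x y r q : W} (hr : r ∈ Sep x y) (hq : q ∈ Sep x y) (h : ¬ Cross r q) :
    Le x r q ∨ Le x q r := by
  by_contra k
  simp only [Le, not_or, not_forall] at k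
  obtain ⟨⟨z1, a1, a2⟩, ⟨z2, b1, b2⟩⟩ := k
  refine h (cross_of_four (a := x) (b := z1) (c := z2) (e := y) a2 ?_ b1 b2 ?_ a1)
  · simp only [mem_Sep] at *
    tauto
  · simp only [mem_Sep] at *
    tauto

theorem not_cross {x r q : W} (h : Le x r q) : ¬ Cross r q := by
  rintro ⟨⟨a, ha⟩, ⟨b, hb⟩, ⟨c, hc⟩, ⟨e, he⟩⟩
  have h1 := h a
  have h2 := h b
  have h3 := h c
  have h4 := h e
  simp only [mem_Sep] at h1 h2 h3 h4
  tauto

end CloseD

open CloseD in
theorem closeD (h4 : T4S) : CloseDS := by
  intro x y h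
  rw [← card_Sep]
  refine mirsky Cross (fun r q => Le x r q ∧ ¬ Le x q r) (Sep x y) (fun a k => k.2 k.1)
    (fun a b c k1 k2 => ⟨fun z hz => k1.1 z (k2.1 z hz),
      fun k => k2.2 fun z hz => k z (k1.1 z hz)⟩) not_cross_self (fun a ha b hb hne => ?_)
    (fun a b k => ⟨not_cross k.1, fun c => not_cross k.1 c.symm⟩) h4 9 _ (Finset.Subset.refl _) h
  by_cases hc : Cross a b
  · exact .inl hc
  have hb2 : ¬ (Le x a b ∧ Le x b a) := fun k => hne (anti k.1 k.2 _ y rfl ha)
  rcases comp ha hb hc with k | k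
  · exact .inr (.inl ⟨k, fun k' => hb2 ⟨k, k'⟩⟩)
  · exact .inr (.inr ⟨k, fun k' => hb2 ⟨k', k⟩⟩)

end Pool.Agent.MP_df844f_gt
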