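import Pool.Agent.MP_df844f_gt.w.Tau

/-! Cutting a finite set along a long class of walls. -/

namespace Pool.Agent.MP_df844f_gt

namespace CutP

open Finset TauP

theorem exists_cut (C : Finset W) (a : W) (k : ℕ) : ∀ (n : ℕ) (b : W), d a b = n →
    k ≤ (C ∩ Sep a b).card → ∃ u, Btw a u b ∧ (C ∩ Sep a u).card = k := by
  intro n
  induction n with
  | zero =>
    intro b hb hk
    obtain rfl := d_eq_zero.1 hb
    refine ⟨a, btw_iff.2 subset_rfl, ?_⟩
    rw [Sep_self, inter_empty, card_empty] at hk ⊢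
    omega
  | succ n ih =>
    intro b hb hk
    by_cases e : (C ∩ Sep a b).card = k
    · exact ⟨b, btw_iff.2 subset_rfl, e⟩
    have hne : b ≠ a := fun k => by rw [k, d_self] at hb; omega
    obtain ⟨s, hs⟩ := exists_desc hne
    have h1 := hs.d_eq
    have h2 := Sep_step_of_mem (desc_iff.1 hs)
    have h3 : (C ∩ Sep a b).card - 1 ≤ (C ∩ Sep a (g s * b)).card := by
      rw [h2, inter_erase]
      exact pred_card_le_card_erase
    obtain ⟨u, hu, hc⟩ := ih (g s * b) (by omega) (by omega)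
    refine ⟨u, btw_iff.2 ((btw_iff.1 hu).trans ?_), hc⟩
    rw [h2]; exact erase_subset _ _

theorem mem_cls {F : Finset W} {r q : W} : q ∈ cls F r ↔ q ∈ sepW F ∧
    ∀ a ∈ F, ∀ b ∈ F, ((q ∈ N a ↔ q ∈ N b) ↔ (r ∈ N a ↔ r ∈ N b)) := by
  unfold cls; rw [mem_filter, ty_eq_iff]

theorem cls_sep {F : Finset W} {r q a b : W} (hq : q ∈ cls F r) (ha : a ∈ F) (hb : b ∈ F)
    (ra : r ∉ N a) (rb : r ∈ N b) : ¬ (q ∈ N a ↔ q ∈ N b) := by
  have := (mem_cls.1 hq).2 a ha b hb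
  grind

theorem k3 (h : K44S) {D C : Finset W} (hC : 4 ≤ C.card) (hc : ∀ q ∈ D, ∀ e ∈ C, Cross q e) :
    D.card ≤ 3 := by
  by_contra k
  exact h D C (by omega) hC hc

theorem cr4 {q e : W} (a b c x : W) (h1 : q ∈ N a ↔ q ∈ N b) (h2 : q ∈ N c ↔ q ∈ N x)
    (h3 : ¬ (q ∈ N a ↔ q ∈ N c)) (h4 : e ∈ N a ↔ e ∈ N c) (h5 : e ∈ N b ↔ e ∈ N x)
    (h6 : ¬ (e ∈ N a ↔ e ∈ N b)) : Cross q e :=
  cross_of_four (a := a) (b := b) (c := c) (e := x) (by rw [mem_Sep]; exact not_not.2 h1)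
    (by rw [mem_Sep]; exact not_not.2 h2) (mem_Sep.2 h3) (by rw [mem_Sep]; exact not_not.2 h4)
    (by rw [mem_Sep]; exact not_not.2 h5) (mem_Sep.2 h6)

/-- Walls separating a point of `[a0, b0]` from both `a'` and `b'`. -/
theorem six (h : K44S) {a0 b0 a' b' u : W} {E1 E3 : Finset W} (hu : Btw a0 u b0)
    (c1 : 4 ≤ E1.card) (c3 : 4 ≤ E3.card)
    (h1 : ∀ e ∈ E1, (e ∈ N a0 ↔ e ∈ N a') ∧ (e ∈ N u ↔ e ∈ N b') ∧ ¬ (e ∈ N a0 ↔ e ∈ N u))
    (h3 : ∀ e ∈ E3, (e ∈ N u ↔ e ∈ N a') ∧ (e ∈ N b0 ↔ e ∈ N b') ∧ ¬ (e ∈ N u ↔ e ∈ N b0)) :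
    (Sep u a' ∩ Sep u b').card ≤ 6 := by
  have a1 : ((Sep u a' ∩ Sep u b').filter fun q => q ∈ N u ↔ q ∈ N a0).card ≤ 3 := by
    refine k3 h c1 fun q hq e he => ?_
    simp only [mem_filter, mem_inter, mem_Sep] at hq
    have := h1 e he
    exact cr4 a0 u a' b' (by grind) (by grind) (by grind) (by grind) (by grind) (by grind)
  have a2 : ((Sep u a' ∩ Sep u b').filter fun q => ¬ (q ∈ N u ↔ q ∈ N a0)).card ≤ 3 := by
    refine k3 h c3 fun q hq e he => ?_
    simp only [mem_filter, mem_inter, mem_Sep] at hq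
    have := h3 e he
    have := btw_iff'.1 hu q
    exact cr4 u b0 a' b' (by grind) (by grind) (by grind) (by grind) (by grind) (by grind)
  have := card_filter_add_card_filter_not (s := Sep u a' ∩ Sep u b') fun q => q ∈ N u ↔ q ∈ N a0
  omega

theorem tf_mono {A B : Finset W} (h : A ⊆ B) (f : W → Finset (W × W)) : tf A f ≤ tf B f := by
  rw [tf_eq (X := A) (U := B.image f) (image_subset_image h)]
  exact sum_le_sum fun t _ => min_le_min_left _ (card_le_card (filter_subset_filter _ h))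

theorem tf_coarse (A : Finset W) (f f' : W → Finset (W × W))
    (h : ∀ q ∈ A, ∀ q' ∈ A, f q = f q' → f' q = f' q') : tf A f' ≤ tf A f := by
  have e : tf A f' = tf ((A.image f).biUnion fun t => A.filter fun q => f q = t) f' := by
    rw [image_biUnion_filter_eq]
  rw [e]
  refine (tf_biUnion _ _ _).trans (sum_le_sum fun t _ => ?_)
  have a1 := tf_le_card (A.filter fun q => f q = t) f'
  have a2 := tf_le_mul (A.filter fun q => f q = t) f'
  have a3 : ((A.filter fun q => f q = t).image f').card ≤ 1 := by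
    refine card_le_one.2 fun x hx y hy => ?_
    obtain ⟨q, hq, rfl⟩ := mem_image.1 hx
    obtain ⟨q', hq', rfl⟩ := mem_image.1 hy
    exact h q (mem_filter.1 hq).1 q' (mem_filter.1 hq').1
      ((mem_filter.1 hq).2.trans (mem_filter.1 hq').2.symm)
  omega

theorem tf_disj (A B : Finset W) (f : W → Finset (W × W)) (h : ∀ q ∈ A, ∀ q' ∈ B, f q ≠ f q') :
    tf A f + tf B f ≤ tf (A ∪ B) f := by
  have hd : Disjoint (A.image f) (B.image f) := by
    rw [disjoint_left]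
    intro t h1 h2
    obtain ⟨q, hq, rfl⟩ := mem_image.1 h1
    obtain ⟨q', hq', e⟩ := mem_image.1 h2
    exact h q hq q' hq' e.symm
  unfold tf
  rw [image_union, sum_union hd]
  exact Nat.add_le_add
    (sum_le_sum fun t _ => min_le_min_left _ (card_le_card (filter_subset_filter _ subset_union_left)))
    (sum_le_sum fun t _ => min_le_min_left _ (card_le_card (filter_subset_filter _ subset_union_right)))

theorem side (h : K44S) {F FL FR E : Finset W} {a0 b0 u : W} (hL : FL ⊆ F) (ha : a0 ∈ FL)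
    (hb : b0 ∈ FR) (hbF : b0 ∈ F) (hu : Btw a0 u b0)
    (hE : ∀ e ∈ E, ∀ a ∈ FL, ∀ b ∈ FR, ¬ (e ∈ N a ↔ e ∈ N b))
    (hE' : ∀ q, (∀ a ∈ FL, ∀ b ∈ FR, ¬ (q ∈ N a ↔ q ∈ N b)) → q ∈ E)
    (c1 : 4 ≤ (E ∩ Sep a0 u).card) (c3 : 4 ≤ (E ∩ Sep u b0).card) :
    tau (insert u FL) ≤ tf (sepW FL \ sepW FR) (ty F) + (E ∩ Sep a0 u).card + 6 := by
  have b1 : (sepW FL ∩ (sepW FR ∪ Sep u b0)).card ≤ 3 := by
    refine k3 h c1 fun q hq e he => ?_
    obtain ⟨hq1, hq2⟩ := mem_inter.1 hq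
    obtain ⟨he1, he2⟩ := mem_inter.1 he
    obtain ⟨x, hx, y, hy, hxy⟩ := mem_sepW.1 hq1
    have e1 := hE e he1 x hx b0 hb
    have e2 := hE e he1 y hy b0 hb
    rcases mem_union.1 hq2 with hq2 | hq2
    · obtain ⟨z, hz, w, hw, hzw⟩ := mem_sepW.1 hq2
      have e3 := hE e he1 x hx z hz
      have e4 := hE e he1 x hx w hw
      by_cases k : q ∈ N x ↔ q ∈ N z
      · exact cr4 x z y w (by grind) (by grind) (by grind) (by grind) (by grind) (by grind)
      · exact cr4 x w y z (by grind) (by grind) (by grind) (by grind) (by grind) (by grind)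
    · have e3 := hE e he1 a0 ha b0 hb
      rw [mem_Sep] at hq2 he2
      by_cases k : q ∈ N x ↔ q ∈ N u
      · exact cr4 x u y b0 (by grind) (by grind) (by grind) (by grind) (by grind) (by grind)
      · exact cr4 y u x b0 (by grind) (by grind) (by grind) (by grind) (by grind) (by grind)
  have b2 : (sepW FR ∩ Sep a0 u).card ≤ 3 := by
    refine k3 h c3 fun q hq e he => ?_
    obtain ⟨hq1, hq2⟩ := mem_inter.1 hq
    obtain ⟨he1, he2⟩ := mem_inter.1 he
    obtain ⟨x, hx, y, hy, hxy⟩ := mem_sepW.1 hq1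
    have e1 := hE e he1 a0 ha x hx
    have e2 := hE e he1 a0 ha y hy
    have e3 := hE e he1 a0 ha b0 hb
    rw [mem_Sep] at hq2 he2
    by_cases k : q ∈ N x ↔ q ∈ N u
    · exact cr4 a0 y u x (by grind) (by grind) (by grind) (by grind) (by grind) (by grind)
    · exact cr4 a0 x u y (by grind) (by grind) (by grind) (by grind) (by grind) (by grind)
  set G := (sepW FL \ sepW FR) \ Sep u b0 with hG
  have cov : sepW (insert u FL) ⊆ G ∪ (E ∩ Sep a0 u ∪
      (sepW FL ∩ (sepW FR ∪ Sep u b0) ∪ sepW FR ∩ Sep a0 u)) := by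
    intro q hq
    simp only [hG, mem_union, mem_inter, mem_sdiff]
    by_cases k1 : q ∈ sepW FL
    · tauto
    have n1 : ∀ a ∈ FL, (q ∈ N a ↔ q ∈ N a0) := fun a ha' => by
      by_contra k
      exact k1 (mem_sepW.2 ⟨a, ha', a0, ha, k⟩)
    have s1 : q ∈ Sep a0 u := by
      obtain ⟨x, hx, y, hy, hxy⟩ := mem_sepW.1 hq
      rw [mem_Sep]
      intro k
      have n2 : ∀ a ∈ insert u FL, (q ∈ N a ↔ q ∈ N a0) := fun a ha' => by
        rcases mem_insert.1 ha' with rfl | ha'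
        · exact k.symm
        · exact n1 a ha'
      exact hxy ((n2 x hx).trans (n2 y hy).symm)
    by_cases k2 : q ∈ sepW FR
    · exact Or.inr (Or.inr (Or.inr ⟨k2, s1⟩))
    refine Or.inr (Or.inl ⟨hE' q fun a ha' b hb' => ?_, s1⟩)
    have n2 : q ∈ N b ↔ q ∈ N b0 := by
      by_contra k
      exact k2 (mem_sepW.2 ⟨b, hb', b0, hb, k⟩)
    have n3 := n1 a ha'
    have n4 := mem_Sep.1 (btw_iff.1 hu s1)
    grind
  have t1 : tf G (ty (insert u FL)) ≤ tf G (ty F) := by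
    refine tf_coarse _ _ _ fun q hq q' hq' e => ?_
    have m1 := (mem_sdiff.1 hq).2
    have m2 := (mem_sdiff.1 hq').2
    rw [mem_Sep, not_not] at m1 m2
    rw [ty_eq_iff] at e ⊢
    have ex : ∀ a ∈ insert u FL, ∃ x ∈ F, (q ∈ N a ↔ q ∈ N x) ∧ (q' ∈ N a ↔ q' ∈ N x) := by
      intro a ha'
      rcases mem_insert.1 ha' with rfl | ha'
      · exact ⟨b0, hbF, m1, m2⟩
      · exact ⟨a, hL ha', Iff.rfl, Iff.rfl⟩
    intro a ha' b hb'
    obtain ⟨x, hx, x1, x2⟩ := ex a ha'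
    obtain ⟨y, hy, y1, y2⟩ := ex b hb'
    rw [x1, x2, y1, y2]
    exact e x hx y hy
  have t2 : tf G (ty F) ≤ tf (sepW FL \ sepW FR) (ty F) := tf_mono sdiff_subset _
  have t3 := (tf_mono cov (ty (insert u FL))).trans (tf_union _ _ _)
  have t4 := tf_le_card (E ∩ Sep a0 u ∪
      (sepW FL ∩ (sepW FR ∪ Sep u b0) ∪ sepW FR ∩ Sep a0 u)) (ty (insert u FL))
  have t5 := card_union_le (E ∩ Sep a0 u) (sepW FL ∩ (sepW FR ∪ Sep u b0) ∪ sepW FR ∩ Sep a0 u)
  have t6 := card_union_le (sepW FL ∩ (sepW FR ∪ Sep u b0)) (sepW FR ∩ Sep a0 u)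
  rw [tau_eq]
  omega

theorem sepW_of_ty {F G : Finset W} (hG : G ⊆ F) {q q' : W} (e : ty F q = ty F q')
    (h : q ∈ sepW G) : q' ∈ sepW G := by
  obtain ⟨a, ha, b, hb, k⟩ := mem_sepW.1 h
  exact mem_sepW.2 ⟨a, ha, b, hb, fun k' => k ((ty_eq_iff.1 e a (hG ha) b (hG hb)).2 k')⟩

theorem sepW_mono {F G : Finset W} (hG : G ⊆ F) : sepW G ⊆ sepW F := by
  intro q h
  obtain ⟨a, ha, b, hb, k⟩ := mem_sepW.1 h
  exact mem_sepW.2 ⟨a, hG ha, b, hG hb, k⟩

end CutP

open Finset TauP CutP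

theorem cutEx : CutExS := by
  intro F r hr hl
  have : ∃ a ∈ F, ∃ b ∈ F, r ∉ N a ∧ r ∈ N b := by
    obtain ⟨a, ha, b, hb, k⟩ := mem_sepW.1 hr
    by_cases e : r ∈ N a
    · exact ⟨b, hb, a, ha, by tauto, e⟩
    · exact ⟨a, ha, b, hb, e, by tauto⟩
  obtain ⟨a, ha, b, hb, ra, rb⟩ := this
  have hs : cls F r ⊆ Sep a b := fun q hq => mem_Sep.2 (cls_sep hq ha hb ra rb)
  obtain ⟨uL, h1, h2⟩ := exists_cut (cls F r) a 58 _ b rfl (by rw [inter_eq_left.2 hs]; omega)
  have h3 : cls F r ⊆ cls F r ∩ Sep a uL ∪ cls F r ∩ Sep b uL := by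
    intro q hq
    have := mem_Sep.1 (hs hq)
    simp only [mem_union, mem_inter, mem_Sep]
    grind
  have h4 := (card_le_card h3).trans (card_union_le _ _)
  obtain ⟨uR, h5, h6⟩ := exists_cut (cls F r) b 58 _ uL rfl (by omega)
  exact ⟨a, b, uL, uR, hl, ha, hb, ra, rb, h1, h5.symm, h2, by rw [Sep_comm]; exact h6⟩

theorem cutSP (h : K44S) (hc : CloseDS) : CutSPS := by
  intro F r a0 b0 uL uR D
  refine ⟨fun a ha b hb a' b' ca cb => ?_, fun a ha b hb => ?_⟩
  swap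
  · obtain ⟨ha, ra⟩ := mem_filter.1 ha
    obtain ⟨hb, rb⟩ := mem_filter.1 hb
    have h1 : cls F r ⊆ Sep a b := fun q hq => mem_Sep.2 (cls_sep hq ha hb ra rb)
    have h2 := card_le_card h1
    have h3 := D.long
    rw [card_Sep] at h2
    omega
  obtain ⟨ha, ra⟩ := mem_filter.1 ha
  obtain ⟨hb, rb⟩ := mem_filter.1 hb
  have da := hc _ _ ca
  have db := hc _ _ cb
  rw [← card_Sep] at da db
  have du := card_union_le (Sep a a') (Sep b b')
  have c1 : 4 ≤ ((cls F r ∩ Sep a0 uL) \ (Sep a a' ∪ Sep b b')).card := by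
    have := le_card_sdiff (Sep a a' ∪ Sep b b') (cls F r ∩ Sep a0 uL)
    have := D.cL
    omega
  have c3 : 4 ≤ ((cls F r ∩ Sep uR b0) \ (Sep a a' ∪ Sep b b')).card := by
    have := le_card_sdiff (Sep a a' ∪ Sep b b') (cls F r ∩ Sep uR b0)
    have := D.cR
    omega
  have p1 : ∀ e ∈ (cls F r ∩ Sep a0 uL) \ (Sep a a' ∪ Sep b b'), (e ∈ N a0 ↔ e ∈ N a') ∧
      (e ∈ N uL ↔ e ∈ N b') ∧ (e ∈ N uR ↔ e ∈ N b') ∧ ¬ (e ∈ N a0 ↔ e ∈ N b') := by
    intro e he
    simp only [mem_sdiff, mem_inter, mem_union, mem_Sep] at he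
    have e1 := cls_sep he.1.1 D.ha D.hb D.ra D.rb
    have e2 := cls_sep he.1.1 ha D.hb ra D.rb
    have e3 := cls_sep he.1.1 D.ha hb D.ra rb
    have e4 := btw_iff'.1 D.bR e
    have e5 := he.1.2
    have e6 := he.2
    clear he
    grind
  have p3 : ∀ e ∈ (cls F r ∩ Sep uR b0) \ (Sep a a' ∪ Sep b b'), (e ∈ N b0 ↔ e ∈ N b') ∧
      (e ∈ N uL ↔ e ∈ N a') ∧ (e ∈ N uR ↔ e ∈ N a') ∧ ¬ (e ∈ N b0 ↔ e ∈ N a') := by
    intro e he
    simp only [mem_sdiff, mem_inter, mem_union, mem_Sep] at he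
    have e1 := cls_sep he.1.1 D.ha D.hb D.ra D.rb
    have e2 := cls_sep he.1.1 ha D.hb ra D.rb
    have e3 := cls_sep he.1.1 D.ha hb D.ra rb
    have e4 := btw_iff'.1 D.bR e
    have e5 := he.1.2
    have e6 := he.2
    clear he
    grind
  have bR' : Btw a0 uR b0 := btw_iff'.2 fun q hq => by
    have e1 := btw_iff'.1 D.bL q
    have e2 := btw_iff'.1 D.bR q
    grind
  have sL := six h D.bL c1 c3 (a' := a') (b' := b') (fun e he => by have := p1 e he; grind)
    (fun e he => by have := p3 e he; grind)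
  have sR := six h bR' c1 c3 (a' := a') (b' := b') (fun e he => by have := p1 e he; grind)
    (fun e he => by have := p3 e he; grind)
  obtain ⟨mL, hmL⟩ := exists_med a' b' uL
  obtain ⟨mR, hmR⟩ := exists_med mL b' uR
  have s3 : ((Sep uR uL ∩ Sep uR b') \ Sep uR a').card ≤ 3 := by
    refine k3 h c3 fun q hq e he => ?_
    simp only [mem_sdiff, mem_inter, mem_Sep] at hq
    have e1 := p3 e he
    have e2 := btw_iff'.1 D.bR q
    exact cr4 a' b0 uL b' (by grind) (by grind) (by grind) (by grind) (by grind) (by grind)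
  refine ⟨mL, mR, close_of_d_le ?_, close_of_d_le ?_, ?_⟩
  · have : Sep uL mL ⊆ Sep uL a' ∩ Sep uL b' := by
      intro q hq
      have := hmL q
      simp only [mem_inter, mem_Sep] at hq ⊢
      grind
    have := card_le_card this
    rw [card_Sep] at this
    omega
  · have : Sep uR mR ⊆ Sep uR a' ∩ Sep uR b' ∪ (Sep uR uL ∩ Sep uR b') \ Sep uR a' := by
      intro q hq
      have e1 := hmL q
      have e2 := hmR q
      simp only [mem_inter, mem_union, mem_sdiff, mem_Sep] at hq ⊢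
      grind
    have := (card_le_card this).trans (card_union_le _ _)
    rw [card_Sep] at this
    omega
  · have e1 : Btw a' mL b' := hmL.btw12
    have e2 : Btw mL mR b' := hmR.btw12
    unfold Btw at e1 e2
    omega

theorem cutTau (h : K44S) : CutTauS := by
  intro F r a0 b0 uL uR D
  set FL := F.filter fun a => r ∉ N a with hFL
  set FR := F.filter fun a => r ∈ N a with hFR
  have sL : FL ⊆ F := filter_subset _ _
  have sR : FR ⊆ F := filter_subset _ _
  have ha : a0 ∈ FL := mem_filter.2 ⟨D.ha, D.ra⟩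
  have hb : b0 ∈ FR := mem_filter.2 ⟨D.hb, D.rb⟩
  have hE : ∀ e ∈ cls F r, ∀ a ∈ FL, ∀ b ∈ FR, ¬ (e ∈ N a ↔ e ∈ N b) := fun e he a ha b hb =>
    cls_sep he (sL ha) (sR hb) (mem_filter.1 ha).2 (mem_filter.1 hb).2
  have hE' : ∀ q, (∀ a ∈ FL, ∀ b ∈ FR, ¬ (q ∈ N a ↔ q ∈ N b)) → q ∈ cls F r := by
    intro q hq
    have e0 := hq a0 ha b0 hb
    refine mem_cls.2 ⟨mem_sepW.2 ⟨a0, D.ha, b0, D.hb, e0⟩, ?_⟩
    have k : ∀ a ∈ F, ((q ∈ N a ↔ q ∈ N b0) ↔ r ∈ N a) := by
      intro a ha'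
      by_cases e : r ∈ N a
      · have := hq a0 ha a (mem_filter.2 ⟨ha', e⟩)
        grind
      · have := hq a (mem_filter.2 ⟨ha', e⟩) b0 hb
        grind
    intro a ha' b hb'
    have e1 := k a ha'
    have e2 := k b hb'
    grind
  have bR' : Btw a0 uR b0 := btw_iff'.2 fun q hq => by
    have e1 := btw_iff'.1 D.bL q
    have e2 := btw_iff'.1 D.bR q
    grind
  have cL := D.cL
  have cR := D.cR
  have i1 : cls F r ∩ Sep uR b0 ⊆ cls F r ∩ Sep uL b0 := by
    refine inter_subset_inter_left fun q hq => ?_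
    have e2 := btw_iff'.1 D.bR q
    rw [mem_Sep] at hq ⊢
    grind
  have i2 : cls F r ∩ Sep a0 uL ⊆ cls F r ∩ Sep uR a0 := by
    refine inter_subset_inter_left fun q hq => ?_
    have e1 := btw_iff'.1 D.bL q
    have e2 := btw_iff'.1 D.bR q
    rw [mem_Sep] at hq ⊢
    grind
  have j1 := card_le_card i1
  have j2 := card_le_card i2
  have t1 := side h sL ha hb D.hb D.bL hE hE' (by omega) (by omega)
  have t2 := side h (E := cls F r) sR hb ha D.ha bR'.symm
    (fun e he a ha b hb k => hE e he b hb a ha k.symm)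
    (fun q hq => hE' q fun a ha b hb k => hq b hb a ha k.symm)
    (by rw [Sep_comm]; omega) (by omega)
  rw [Sep_comm b0 uR] at t2
  have t3 := tf_disj (sepW FL \ sepW FR) (sepW FR \ sepW FL) (ty F) fun q hq q' hq' e =>
    (mem_sdiff.1 hq').2 (sepW_of_ty sL e (mem_sdiff.1 hq).1)
  have nE : ∀ e ∈ cls F r, e ∉ sepW FL ∧ e ∉ sepW FR := by
    intro e he
    constructor
    · intro k
      obtain ⟨x, hx, y, hy, k⟩ := mem_sepW.1 k
      have e1 := hE e he x hx b0 hb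
      have e2 := hE e he y hy b0 hb
      grind
    · intro k
      obtain ⟨x, hx, y, hy, k⟩ := mem_sepW.1 k
      have e1 := hE e he a0 ha x hx
      have e2 := hE e he a0 ha y hy
      grind
  have t4 := tf_disj (sepW FL \ sepW FR ∪ sepW FR \ sepW FL) (cls F r) (ty F) fun q hq q' hq' e => by
    rcases mem_union.1 hq with k | k
    · exact (nE q' hq').1 (sepW_of_ty sL e (mem_sdiff.1 k).1)
    · exact (nE q' hq').2 (sepW_of_ty sR e (mem_sdiff.1 k).1)
  have t5 : tf (sepW FL \ sepW FR ∪ sepW FR \ sepW FL ∪ cls F r) (ty F) ≤ tau F :=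
    tf_mono (union_subset (union_subset (sdiff_subset.trans (sepW_mono sL))
      (sdiff_subset.trans (sepW_mono sR))) (filter_subset _ _)) _
  have t6 : tf (cls F r) (ty F) = 140 := by
    have hl := D.long
    have e : ((cls F r).filter fun q => ty F q = ty F r) = cls F r :=
      filter_true_of_mem fun q hq => (mem_filter.1 hq).2
    rw [tf_eq (U := {ty F r}) (fun t ht => by
      obtain ⟨q, hq, rfl⟩ := mem_image.1 ht
      exact mem_singleton.2 (mem_filter.1 hq).2), sum_singleton, e]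
    omega
  omega

end Pool.Agent.MP_df844f_gt
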