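import Pool.Agent.MP_df844f_gt.SpecW

/-! Row FILL: cycles of rank 2 cells in a convex set bound chains of faces. -/

namespace Pool.Agent.MP_df844f_gt

open PS

namespace Fill

section
variable {B : Type} [MulAction W B] {Y : PS B}

theorem bd_apply (γ : Y.Chain) (C : Y.Cell) (A : Finset Y.Cell)
    (h : ∀ e ∈ γ.support, Y.bd1 e C ≠ 0 → e ∈ A) :
    Y.bd γ C = ∑ e ∈ A, γ e * Y.bd1 e C := by
  have h0 : Y.bd γ C = ∑ e ∈ γ.support, γ e * Y.bd1 e C := by
    unfold PS.bd
    rw [Finsupp.linearCombination_apply, Finsupp.sum, Finsupp.finsetSum_apply]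
    rfl
  rw [h0]
  have h1 : ∑ e ∈ A ∩ γ.support, γ e * Y.bd1 e C = ∑ e ∈ γ.support, γ e * Y.bd1 e C := by
    refine Finset.sum_subset Finset.inter_subset_right fun e he hn => ?_
    by_cases k : Y.bd1 e C = 0
    · rw [k, mul_zero]
    · exact absurd (Finset.mem_inter.2 ⟨h e he k, he⟩) hn
  have h2 : ∑ e ∈ A ∩ γ.support, γ e * Y.bd1 e C = ∑ e ∈ A, γ e * Y.bd1 e C := by
    refine Finset.sum_subset Finset.inter_subset_left fun e he hn => ?_
    have : γ e = 0 := by
      by_contra k
      exact hn (Finset.mem_inter.2 ⟨he, Finsupp.mem_support_iff.2 k⟩)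
    rw [this, zero_mul]
  rw [← h1, h2]

theorem bd1_cell (x : Y.Om) (J : Finset S) :
    Y.bd1 (Y.cell x J) = ∑ t ∈ Finset.univ.filter (fun t => ∀ s ∈ J, adj s t),
      Finsupp.single (Y.cell x (insert t J)) (1 : F2) := rfl

theorem bd1_ne {x : Y.Om} {J : Finset S} {C : Y.Cell} (h : Y.bd1 (Y.cell x J) C ≠ 0) :
    ∃ r, (∀ s ∈ J, adj s r) ∧ Y.cell x (insert r J) = C := by
  rw [bd1_cell, Finsupp.finsetSum_apply] at h
  obtain ⟨r, hr, k⟩ := Finset.exists_ne_zero_of_sum_ne_zero h
  refine ⟨r, (Finset.mem_filter.1 hr).2, ?_⟩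
  by_contra q
  exact k (Finsupp.single_eq_of_ne' q)

theorem bd1_one (x : Y.Om) {J J' : Finset S} {u : S} (hu : ∀ s ∈ J, adj s u)
    (e : J' = insert u J) : Y.bd1 (Y.cell x J) (Y.cell x J') = 1 := by
  subst e
  rw [bd1_cell, Finsupp.finsetSum_apply, Finset.sum_eq_single u]
  · exact Finsupp.single_eq_same
  · intro r hr hne
    refine Finsupp.single_eq_of_ne' fun q => ?_
    have q1 := (cell_eq_iff.1 q).1
    have q2 : r ∈ insert u J := q1 ▸ Finset.mem_insert_self r J
    rcases Finset.mem_insert.1 q2 with q3 | q3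
    · exact hne q3
    · exact adj_irrefl r ((Finset.mem_filter.1 hr).2 r q3)
  · intro k
    exact absurd (Finset.mem_filter.2 ⟨Finset.mem_univ _, hu⟩) k

theorem mem_bd {γ : Y.Chain} {C : Y.Cell} (h : Y.bd γ C ≠ 0) :
    ∃ e ∈ γ.support, Y.bd1 e C ≠ 0 := by
  by_contra k
  push Not at k
  apply h
  rw [bd_apply γ C ∅ fun e he q => absurd (k e he) q]
  simp

/-- The chain of faces of one chamber with given coefficients. -/
noncomputable def faces (x : Y.Om) (J : Finset S) (φ : S → F2) : Y.Chain :=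
  ∑ s ∈ Jᶜ, Finsupp.single (Y.cell x {s}) (φ s)

theorem faces_supp {x : Y.Om} {J : Finset S} {φ : S → F2} {e : Y.Cell}
    (h : e ∈ (faces x J φ).support) : ∃ s, s ∉ J ∧ e = Y.cell x {s} := by
  rw [Finsupp.mem_support_iff, faces, Finsupp.finsetSum_apply] at h
  obtain ⟨s, hs, k⟩ := Finset.exists_ne_zero_of_sum_ne_zero h
  refine ⟨s, Finset.mem_compl.1 hs, ?_⟩
  by_contra q
  exact k (Finsupp.single_eq_of_ne q)

theorem faces_apply (x : Y.Om) {J : Finset S} (φ : S → F2) {p : S} (hp : p ∉ J) :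
    faces x J φ (Y.cell x {p}) = φ p := by
  rw [faces, Finsupp.finsetSum_apply, Finset.sum_eq_single p]
  · exact Finsupp.single_eq_same
  · intro r _ hne
    refine Finsupp.single_eq_of_ne' fun q => hne ?_
    exact Finset.singleton_injective (cell_eq_iff.1 q).1
  · intro k
    exact absurd (Finset.mem_compl.2 hp) k

theorem bd_faces (x : Y.Om) {J : Finset S} (φ : S → F2) {p q : S} (hp : p ∉ J) (hq : q ∉ J)
    (h : adj p q) : Y.bd (faces x J φ) (Y.cell x {p, q}) = φ p + φ q := by
  have hne : Y.cell x {p} ≠ Y.cell x {q} := fun k =>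
    adj_ne h (Finset.singleton_injective (cell_eq_iff.1 k).1)
  rw [bd_apply _ _ {Y.cell x {p}, Y.cell x {q}}, Finset.sum_pair hne, faces_apply x φ hp,
    faces_apply x φ hq, bd1_one x (u := q) (by simpa using h) (Finset.pair_comm p q),
    bd1_one x (u := p) (by simpa using adj_symm h) rfl, mul_one, mul_one]
  intro e he k
  obtain ⟨s, _, rfl⟩ := faces_supp he
  obtain ⟨r, _, k2⟩ := bd1_ne k
  have k3 := (cell_eq_iff.1 k2).1
  have k4 : s ∈ ({p, q} : Finset S) := k3 ▸ (by simp)
  rcases Finset.mem_insert.1 k4 with rfl | k5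
  · simp
  · rw [Finset.mem_singleton.1 k5]; simp

end

/-- The lowest corner of a cell is unique. -/
theorem key {K : Finset W} {b : W} {c x : (cvxPS K).Om} {J : Finset S} (hJ : Clq J)
    (hc : ∀ s ∈ J, ¬ Desc b c.1 s) (h : (cvxPS K).cell c J = (cvxPS K).cell x J)
    (hd : d b x.1 ≤ d b c.1) : x = c := by
  have h1 := (cell_eq_iff.1 h).2
  have h2 : Sep b c.1 ⊆ Sep b x.1 ∧ ∀ s ∈ J, wall s x.1 = wall s c.1 := by
    clear h hd
    induction h1 with
    | refl => exact ⟨Finset.Subset.refl _, fun _ _ => rfl⟩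
    | @tail y z _ k ih =>
      obtain ⟨s, hs, e⟩ := k
      have e' : z.1 = g s * y.1 := e
      rw [e']
      constructor
      · intro r hr
        rw [mem_Sep_step, ih.2 s hs]
        have a1 : r ≠ wall s c.1 := fun q => hc s hs (desc_iff.2 (q ▸ hr))
        have a2 := ih.1 hr
        tauto
      · intro t ht
        by_cases q : t = s
        · rw [q, wall_g_mul, ih.2 s hs]
        · rw [wall_adj (hJ t ht s hs q), ih.2 t ht]
  rw [← card_Sep, ← card_Sep] at hd
  exact Subtype.ext (eq_of_Sep_eq (Finset.eq_of_subset_of_card_le h2.1 hd).symm)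

theorem pair_sub : ∀ r p q s t u : S, adj p q → (insert r {p, q} : Finset S) = {s, t, u} →
    ({p, q} : Finset S) = {s, t} ∨ ({p, q} : Finset S) = {t, u} ∨ ({p, q} : Finset S) = {s, u} := by
  intro r p q s t u h e
  have hp : p ∈ ({s, t, u} : Finset S) := e ▸ (by simp)
  have hq : q ∈ ({s, t, u} : Finset S) := e ▸ (by simp)
  have hne := adj_ne h
  simp only [Finset.mem_insert, Finset.mem_singleton] at hp hq
  rcases hp with rfl | rfl | rfl <;> rcases hq with rfl | rfl | rfl <;>
    first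
      | exact absurd rfl hne
      | simp [Finset.pair_comm]

theorem pair_ne {s t u : S} (h1 : adj t u) (h2 : adj s u) {v : S} :
    ({s, t} : Finset S) ≠ {v, u} := by
  intro e
  have hu : u ∈ ({s, t} : Finset S) := e ▸ (by simp)
  rcases Finset.mem_insert.1 hu with k | k
  · exact adj_ne h2 k.symm
  · exact adj_ne h1 (Finset.mem_singleton.1 k).symm

/-- The cell has a lowest corner in `T`. -/
def Low (K : Finset W) (b : W) (T : Finset W) (e : (cvxPS K).Cell) : Prop :=
  ∃ (x : (cvxPS K).Om) (s t : S), x.1 ∈ T ∧ adj s t ∧ ¬ Desc b x.1 s ∧ ¬ Desc b x.1 t ∧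
    e = (cvxPS K).cell x {s, t}

theorem low_init {K : Finset W} (hK : Cvx (K : Set W)) {b : W} (hb : b ∈ K) {s t : S}
    (h : adj s t) : ∀ (n : ℕ) (x : (cvxPS K).Om), d b x.1 = n →
      Low K b K ((cvxPS K).cell x {s, t}) := by
  intro n
  induction n using Nat.strong_induction_on with
  | _ n ih =>
    intro x hx
    have step : ∀ u ∈ ({s, t} : Finset S), Desc b x.1 u → Low K b K ((cvxPS K).cell x {s, t}) := by
      intro u hu hd
      have hm : g u * x.1 ∈ K := hK b hb x.1 x.2 _ hd.btw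
      have e : (cvxPS K).cell x {s, t} = (cvxPS K).cell ⟨g u * x.1, hm⟩ {s, t} :=
        cell_e (Y := cvxPS K) hu rfl
      rw [e]
      exact ih _ (by rw [← hx]; exact hd) _ rfl
    by_cases a : Desc b x.1 s
    · exact step s (by simp) a
    by_cases a' : Desc b x.1 t
    · exact step t (by simp) a'
    exact ⟨x, s, t, x.2, h, a, a', rfl⟩

theorem cocyc {K : Finset W} {b : W} {T : Finset W} {c : (cvxPS K).Om}
    (hmax : ∀ x ∈ T, d b x ≤ d b c.1) {β : (cvxPS K).Chain} (hβ : ∀ e ∈ β.support, Low K b T e)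
    (h0 : (cvxPS K).bd β = 0) {s t u : S} (hs : ¬ Desc b c.1 s) (ht : ¬ Desc b c.1 t)
    (hu : ¬ Desc b c.1 u) (h1 : adj s t) (h2 : adj t u) (h3 : adj s u) :
    β ((cvxPS K).cell c {s, t}) + β ((cvxPS K).cell c {t, u}) + β ((cvxPS K).cell c {s, u}) = 0 := by
  have hJ : Clq {s, t, u} := by
    intro p hp q hq hne
    simp only [Finset.mem_insert, Finset.mem_singleton] at hp hq
    rcases hp with rfl | rfl | rfl <;> rcases hq with rfl | rfl | rfl <;>
      first
        | exact absurd rfl hne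
        | assumption
        | exact adj_symm ‹_›
  have hc : ∀ p ∈ ({s, t, u} : Finset S), ¬ Desc b c.1 p := by
    intro p hp
    simp only [Finset.mem_insert, Finset.mem_singleton] at hp
    rcases hp with rfl | rfl | rfl <;> assumption
  have n1 : (cvxPS K).cell c {s, t} ≠ (cvxPS K).cell c {t, u} := fun k =>
    pair_ne h2 h3 (cell_eq_iff.1 k).1
  have n2 : (cvxPS K).cell c {s, t} ≠ (cvxPS K).cell c {s, u} := fun k =>
    pair_ne h2 h3 (cell_eq_iff.1 k).1
  have n3 : (cvxPS K).cell c {t, u} ≠ (cvxPS K).cell c {s, u} := fun k =>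
    pair_ne (adj_symm h3) (adj_symm h1) ((cell_eq_iff.1 k).1.trans (Finset.pair_comm s u))
  have z : (cvxPS K).bd β ((cvxPS K).cell c {s, t, u}) = 0 := by rw [h0]; rfl
  rw [bd_apply β _ {(cvxPS K).cell c {s, t}, (cvxPS K).cell c {t, u}, (cvxPS K).cell c {s, u}},
    Finset.sum_insert (by simp [n1, n2]), Finset.sum_pair n3,
    bd1_one c (u := u) (by simp [h2, h3]) (by ext; simp; tauto),
    bd1_one c (u := s) (by simp [adj_symm h1, adj_symm h3]) rfl,
    bd1_one c (u := t) (by simp [h1, adj_symm h2]) (by ext; simp; tauto),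
    mul_one, mul_one, mul_one, ← add_assoc] at z
  · exact z
  · intro e he k
    obtain ⟨x, p, q, hx, hpq, _, _, rfl⟩ := hβ e he
    obtain ⟨r, _, k2⟩ := bd1_ne k
    have k3 := (cell_eq_iff.1 k2).1
    rw [k3] at k2
    obtain rfl : x = c := key hJ hc k2.symm (hmax _ hx)
    rcases pair_sub r p q s t u hpq k3 with q1 | q1 | q1 <;> rw [q1] <;> simp

theorem main (hF : FactS) {K : Finset W} {b : W} : ∀ (n : ℕ) (T : Finset W), T.card = n →
    T ⊆ K → (∀ x ∈ T, ∀ s, Desc b x s → g s * x ∈ T) → ∀ β : (cvxPS K).Chain,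
    (∀ e ∈ β.support, Low K b T e) → (cvxPS K).bd β = 0 →
    ∃ E : (cvxPS K).Chain, (∀ c ∈ E.support, ∃ x s, c = (cvxPS K).cell x {s}) ∧
      (cvxPS K).bd E = β := by
  intro n
  induction n with
  | zero =>
    intro T hT _ _ β hβ _
    rw [Finset.card_eq_zero] at hT
    refine ⟨0, by simp, ?_⟩
    rw [map_zero]
    refine (Finsupp.support_eq_empty.1 (Finset.eq_empty_of_forall_notMem fun e he => ?_)).symm
    obtain ⟨x, _, _, hx, _⟩ := hβ e he
    rw [hT] at hx
    exact Finset.notMem_empty _ hx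
  | succ n ih =>
    intro T hT hTK hcl β hβ h0
    classical
    obtain ⟨c0, hc0, hmax⟩ := Finset.exists_max_image T (d b) (Finset.card_pos.1 (by omega))
    let c : (cvxPS K).Om := ⟨c0, hTK hc0⟩
    let J : Finset S := Finset.univ.filter fun s => Desc b c0 s
    have hJ : ∀ s, s ∈ J ↔ Desc b c0 s := fun s => by simp [J]
    have hJc : Clq J := fun s hs t ht hne => desc_adj ((hJ s).1 hs) ((hJ t).1 ht) hne
    obtain ⟨φ, hφ⟩ := hF.h1 J hJc (fun s t => β ((cvxPS K).cell c {s, t}))
      (fun s t => by rw [Finset.pair_comm])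
      (fun s hs t ht u hu h1 h2 h3 => cocyc (c := c) hmax hβ h0 (fun k => hs ((hJ s).2 k))
        (fun k => ht ((hJ t).2 k)) (fun k => hu ((hJ u).2 k)) h1 h2 h3)
    obtain ⟨E, hE1, hE2⟩ := ih (T.erase c0) (by rw [Finset.card_erase_of_mem hc0]; omega)
      ((Finset.erase_subset _ _).trans hTK)
      (fun x hx s hs => by
        have hx' := Finset.mem_of_mem_erase hx
        refine Finset.mem_erase.2 ⟨fun k => ?_, hcl x hx' s hs⟩
        have a1 := hmax x hx'
        have a2 : d b (g s * x) < d b x := hs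
        rw [k] at a2
        omega)
      (β - (cvxPS K).bd (faces c J φ))
      (fun e he => by
        have he' : (β - (cvxPS K).bd (faces c J φ)) e ≠ 0 := Finsupp.mem_support_iff.1 he
        have hl : Low K b T e := by
          by_cases k : β e = 0
          · have k2 : (cvxPS K).bd (faces c J φ) e ≠ 0 := fun q => he' (by
              rw [Finsupp.sub_apply, k, q, sub_zero])
            obtain ⟨f, hf, k3⟩ := mem_bd k2
            obtain ⟨s, hs, rfl⟩ := faces_supp hf
            obtain ⟨t, ht, rfl⟩ := bd1_ne k3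
            have hst : adj s t := ht s (by simp)
            have hs' : ¬ Desc b c0 s := fun q => hs ((hJ s).2 q)
            by_cases q : Desc b c0 t
            · have hm := hcl c0 hc0 t q
              refine ⟨⟨g t * c0, hTK hm⟩, t, s, hm, adj_symm hst, fun q2 => ?_, fun q2 => ?_,
                cell_e (Y := cvxPS K) (s := t) (by simp) rfl⟩
              · have a1 : d b (g t * (g t * c0)) < d b (g t * c0) := q2
                have a2 : d b (g t * c0) < d b c0 := q
                rw [g_mul_g_mul] at a1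
                omega
              · have a1 : wall s (g t * c0) ∈ Sep b (g t * c0) := desc_iff.1 q2
                rw [wall_adj hst, Sep_step_of_mem (desc_iff.1 q)] at a1
                exact hs' (desc_iff.2 (Finset.mem_of_mem_erase a1))
            · exact ⟨c, t, s, hc0, adj_symm hst, q, hs', rfl⟩
          · exact hβ e (Finsupp.mem_support_iff.2 k)
        obtain ⟨x, p, q, hx, hpq, hp, hq, rfl⟩ := hl
        refine ⟨x, p, q, Finset.mem_erase.2 ⟨fun k => he' ?_, hx⟩, hpq, hp, hq, rfl⟩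
        obtain rfl : x = c := Subtype.ext k
        have hp' : p ∉ J := fun a => hp ((hJ p).1 a)
        have hq' : q ∉ J := fun a => hq ((hJ q).1 a)
        rw [Finsupp.sub_apply, bd_faces c φ hp' hq' hpq, hφ p hp' q hq' hpq, sub_self])
      (by rw [map_sub, h0, bd_bd, sub_zero])
    refine ⟨E + faces c J φ, fun e he => ?_, by rw [map_add, hE2, sub_add_cancel]⟩
    rcases Finset.mem_union.1 (Finsupp.support_add he) with k | k
    · exact hE1 e k
    · obtain ⟨s, _, rfl⟩ := faces_supp k
      exact ⟨c, s, rfl⟩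

end Fill

theorem fill (hF : FactS) : FillS := by
  intro K hK β hβ h0
  rcases K.eq_empty_or_nonempty with hE | ⟨b, hb⟩
  · refine Fill.main hF (b := 1) _ K rfl (Finset.Subset.refl _) (fun x hx => ?_) β
      (fun e he => ?_) h0
    · rw [hE] at hx; exact absurd hx (Finset.notMem_empty _)
    · obtain ⟨x, _⟩ := hβ e he
      exact absurd (hE ▸ x.2 : x.1 ∈ (∅ : Finset W)) (Finset.notMem_empty _)
  · refine Fill.main hF (b := b) _ K rfl (Finset.Subset.refl _)
      (fun x hx s hs => hK b hb x hx _ hs.btw) β (fun e he => ?_) h0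
    obtain ⟨x, s, t, h, rfl⟩ := hβ e he
    exact Fill.low_init hK hb h _ x rfl

end Pool.Agent.MP_df844f_gt
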