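import Pool.Agent.MP_df844f_gt.SpecW

/-! Two gadgets joined by an arc form a gadget. -/

namespace Pool.Agent.MP_df844f_gt

open PS

namespace GJoin

/-- Maps of prestates over `W` that preserve edges and darts. -/
structure Emb (Y Y' : PS W) : Type where
  π : Y.Om → Y'.Om
  α : Y.A → Y'.A
  e_π : ∀ {s x y}, Y.e s x y → Y'.e s (π x) (π y)
  src_α : ∀ a, Y'.src (α a) = π (Y.src a)
  rev_α : ∀ a, Y'.rev (α a) = α (Y.rev a)
  lab_α : ∀ a, Y'.lab (α a) = Y.lab a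

variable {Y Y' : PS W}

def Emb.lbl (φ : Emb Y Y') : Y.Lbl → Y'.Lbl
  | .edge s x y => .edge s (φ.π x) (φ.π y)
  | .dart a => .dart (φ.α a)

theorem Emb.tw (φ : Emb Y Y') {n m : Y.Node} {l : ℕ} {ch : Y.Path} (h : Y.TW tt n m l ch) :
    ∃ ch', Y'.TW tt ⟨φ.π n.x, n.w, n.p⟩ ⟨φ.π m.x, m.w, m.p⟩ l ch' := by
  induction h with
  | nil n a b => exact ⟨_, TW.nil _ a b⟩
  | @edge n n' m _ _ s a b c e _ ih =>
    obtain ⟨ch', ih⟩ := ih
    exact ⟨_, TW.edge (n := ⟨φ.π n.x, n.w, n.p⟩) (n' := ⟨φ.π n'.x, n'.w, n'.p⟩) s a b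
      (φ.e_π c) e ih⟩
  | @dart n n' m _ _ s a b c e f _ ih =>
    obtain ⟨ch', ih⟩ := ih
    exact ⟨_, TW.dart (n := ⟨φ.π n.x, n.w, n.p⟩) (n' := ⟨φ.π n'.x, n'.w, n'.p⟩) (φ.α s) a b
      (by rw [φ.src_α, c]) (by rw [φ.rev_α, φ.src_α, e]) (by rw [φ.lab_α]; exact f) ih⟩
  | @stay n n' m _ _ a b c e _ ih =>
    obtain ⟨ch', ih⟩ := ih
    exact ⟨_, TW.stay (n := ⟨φ.π n.x, n.w, n.p⟩) (n' := ⟨φ.π n'.x, n'.w, n'.p⟩) a b
      (congrArg φ.π c) e ih⟩

theorem Emb.cocyc (φ : Emb Y Y') {c : Y'.Coch Unit} (hc : Cocyc c) :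
    Cocyc (fun l => c (φ.lbl l) : Y.Coch Unit) where
  symm s x y ε h := hc.symm s _ _ ε (φ.e_π h)
  dsym a ε := by
    have h := hc.dsym (φ.α a) ε
    rw [φ.rev_α] at h
    exact h
  sq s t _ _ _ _ ε h h0 h1 h2 h3 :=
    hc.sq s t _ _ _ _ ε h (φ.e_π h0) (φ.e_π h1) (φ.e_π h2) (φ.e_π h3)

theorem Emb.conn (φ : Emb Y Y') (h : Y.Conn) {T : Type} (ψ : Y'.Om → T)
    (h1 : ∀ s x y, Y'.e s x y → ψ x = ψ y) (h2 : ∀ a, ψ (Y'.src a) = ψ (Y'.src (Y'.rev a)))
    (x y : Y.Om) : ψ (φ.π x) = ψ (φ.π y) :=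
  h T (fun z => ψ (φ.π z)) (fun s _ _ e => h1 s _ _ (φ.e_π e)) (fun a => by
    have h3 := h2 (φ.α a)
    rwa [φ.rev_α, φ.src_α, φ.src_α] at h3) x y

variable (L R : PS W) (xL : L.Om) (xR : R.Om)

/-- The disjoint union with a new arc from `xL` to `xR`. -/
def join : PS W where
  Om := L.Om ⊕ R.Om
  A := (L.A ⊕ R.A) ⊕ Bool
  f := Sum.elim L.f R.f
  e s := Sum.LiftRel (L.e s) (R.e s)
  e_symm h := by
    cases h with
    | inl h => exact .inl (L.e_symm h)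
    | inr h => exact .inr (R.e_symm h)
  e_f h := by
    cases h with
    | inl h => exact L.e_f h
    | inr h => exact R.e_f h
  rev := Sum.map (Sum.map L.rev R.rev) not
  rev_rev := by
    rintro ((a | a) | b)
    · exact congrArg (fun z => Sum.inl (Sum.inl z)) (L.rev_rev a)
    · exact congrArg (fun z => Sum.inl (Sum.inr z)) (R.rev_rev a)
    · cases b <;> rfl
  rev_ne := by
    rintro ((a | a) | b) h
    · exact L.rev_ne a (Sum.inl.inj (Sum.inl.inj h))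
    · exact R.rev_ne a (Sum.inr.inj (Sum.inl.inj h))
    · cases b <;> cases h
  src := Sum.elim (Sum.map L.src R.src) fun b => cond b (.inl xL) (.inr xR)
  lab := Sum.elim (Sum.elim L.lab R.lab) fun b =>
    cond b (R.f xR * (L.f xL)⁻¹) (R.f xR * (L.f xL)⁻¹)⁻¹
  lab_rev := by
    rintro ((a | a) | b)
    · exact L.lab_rev a
    · exact R.lab_rev a
    · cases b
      · exact (inv_inv _).symm
      · rfl
  f_rev := by
    rintro ((a | a) | b)
    · exact L.f_rev a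
    · exact R.f_rev a
    · cases b
      · change L.f xL = (R.f xR * (L.f xL)⁻¹)⁻¹ * R.f xR
        group
      · change R.f xR = (R.f xR * (L.f xL)⁻¹) * L.f xL
        group

def embL : Emb L (join L R xL xR) where
  π := Sum.inl
  α a := Sum.inl (Sum.inl a)
  e_π h := Sum.LiftRel.inl h
  src_α _ := rfl
  rev_α _ := rfl
  lab_α _ := rfl

def embR : Emb R (join L R xL xR) where
  π := Sum.inr
  α a := Sum.inl (Sum.inr a)
  e_π h := Sum.LiftRel.inr h
  src_α _ := rfl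
  rev_α _ := rfl
  lab_α _ := rfl

theorem vol_join : (join L R xL xR).vol = L.vol + R.vol := Nat.card_sum

theorem conn_join (hL : L.Conn) (hR : R.Conn) : (join L R xL xR).Conn := by
  intro T ψ h1 h2
  have a := (embL L R xL xR).conn hL ψ h1 h2
  have b := (embR L R xL xR).conn hR ψ h1 h2
  have c : ψ (Sum.inl xL) = ψ (Sum.inr xR) := h2 (Sum.inr true)
  have key : ∀ x, ψ x = ψ (Sum.inl xL) := by
    rintro (x | x)
    · exact a x xL
    · exact (b x xR).trans c.symm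
  exact fun x y => (key x).trans (key y).symm

theorem h1_join (hL : ∀ c : L.Coch Unit, Cocyc c → Cobd c)
    (hR : ∀ c : R.Coch Unit, Cocyc c → Cobd c) (c : (join L R xL xR).Coch Unit) (hc : Cocyc c) :
    Cobd c := by
  obtain ⟨p, hp⟩ := hL _ ((embL L R xL xR).cocyc hc)
  obtain ⟨q, hq⟩ := hR _ ((embR L R xL xR).cocyc hc)
  have e1 : ∀ u a b k : F2, u = a + b → u = a + k + (b + k) := by decide
  have e2 : ∀ u a b : F2, u = a + (b + (u + a + b)) := by decide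
  have e3 : ∀ v u a b : F2, v = u → v = b + (u + a + b) + a := by decide
  refine ⟨Sum.elim p fun x ε => q x ε + (c (.dart (Sum.inr true)) () + p xL () + q xR ()),
    fun s x y ε h => ?_, ?_⟩
  · cases h with
    | inl h => exact hp.ed s _ _ ε h
    | inr h => exact e1 _ _ _ _ (hq.ed s _ _ ε h)
  · rintro ((a | a) | b) ε
    · exact hp.da a ε
    · exact e1 _ _ _ _ (hq.da a ε)
    · cases b
      · exact e3 _ _ _ _ (hc.dsym (Sum.inr true) ())
      · exact e2 _ _ _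

end GJoin

open GJoin in
theorem gjoin : GJoinS := by
  intro L R FL FR uL uR ιL ιR hL hR hcut hd
  have mL : ∀ {a}, a ∈ FL → a ∈ insert uL FL := Finset.mem_insert_of_mem
  have mR : ∀ {a}, a ∈ FR → a ∈ insert uR FR := Finset.mem_insert_of_mem
  have uLm : uL ∈ insert uL FL := Finset.mem_insert_self _ _
  have uRm : uR ∈ insert uR FR := Finset.mem_insert_self _ _
  have hR' : ∀ {a}, a ∈ FL ∪ FR → a ∉ FL → a ∈ FR := fun h k =>
    (Finset.mem_union.1 h).resolve_left k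
  let Q := join L R (ιL uL) (ιR uR)
  let eL : Emb L Q := embL L R _ _
  let eR : Emb R Q := embR L R _ _
  let ι : W → Q.Om := fun a => if a ∈ FL then eL.π (ιL a) else eR.π (ιR a)
  have iL : ∀ {a}, a ∈ FL → ι a = eL.π (ιL a) := fun h => if_pos h
  have iR : ∀ {a}, a ∉ FL → ι a = eR.π (ιR a) := fun h => if_neg h
  have cross : ∀ a ∈ FL, ∀ b ∈ FR, ∀ a' b', Close a a' → Close b b' →
      ∃ ch, Q.TW tt ⟨eL.π (ιL a), a, a'⟩ ⟨eR.π (ιR b), b, b'⟩ (d a' b') ch := by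
    intro a ha b hb a' b' ca cb
    obtain ⟨u', v', cu, cv, hs⟩ := hcut a ha b hb a' b' ca cb
    obtain ⟨_, w1⟩ := hL.sp a (mL ha) uL uLm a' u' ca cu
    obtain ⟨_, w2⟩ := hR.sp uR uRm b (mR hb) v' b' cv cb
    obtain ⟨_, t1⟩ := eL.tw w1
    obtain ⟨_, t2⟩ := eR.tw w2
    have hw : uR = Q.lab (Sum.inr true) * uL := by
      change uR = R.f (ιR uR) * (L.f (ιL uL))⁻¹ * uL
      rw [hL.f_ι uL uLm, hR.f_ι uR uRm, inv_mul_cancel_right]
    have t3 := TW.dart (Y := Q) (P := tt) (n := ⟨eL.π (ιL uL), uL, u'⟩)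
      (n' := ⟨eR.π (ιR uR), uR, v'⟩) (Sum.inr true) cu trivial rfl rfl hw t2
    exact ⟨_, (t1.append t3).cast (by rw [← hs]; exact (Nat.add_assoc _ _ _).symm)⟩
  refine ⟨Q, ι, ⟨fun a ha => ?_, fun a ha s hs => ?_, h1_join _ _ _ _ hL.h1 hR.h1,
    conn_join _ _ _ _ hL.conn hR.conn, fun a ha b hb a' b' ca cb => ?_⟩, vol_join _ _ _ _⟩
  · by_cases h : a ∈ FL
    · rw [iL h]; exact hL.f_ι a (mL h)
    · rw [iR h]; exact hR.f_ι a (mR (hR' ha h))
  · by_cases h : a ∈ FL <;> by_cases h' : g s * a ∈ FL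
    · rw [iL h, iL h']; exact eL.e_π (hL.e_ι a (mL h) s (mL h'))
    · have h2 := hd a h _ (hR' hs h')
      rw [d_g_mul] at h2
      omega
    · have h2 := hd _ h' a (hR' ha h)
      rw [d_comm, d_g_mul] at h2
      omega
    · rw [iR h, iR h']; exact eR.e_π (hR.e_ι a (mR (hR' ha h)) s (mR (hR' hs h')))
  · by_cases h : a ∈ FL <;> by_cases h' : b ∈ FL
    · rw [iL h, iL h']
      obtain ⟨_, w⟩ := hL.sp a (mL h) b (mL h') a' b' ca cb
      exact eL.tw w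
    · rw [iL h, iR h']
      exact cross a h b (hR' hb h') a' b' ca cb
    · rw [iR h, iL h']
      obtain ⟨_, w⟩ := cross b h' a (hR' ha h) b' a' cb ca
      obtain ⟨_, w', -⟩ := w.reverse
      exact ⟨_, w'.cast (d_comm _ _)⟩
    · rw [iR h, iR h']
      obtain ⟨_, w⟩ := hR.sp a (mR (hR' ha h)) b (mR (hR' hb h')) a' b' ca cb
      exact eR.tw w

end Pool.Agent.MP_df844f_gt
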