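import Pool.Agent.MP_df844f_gt.SpecW

/-! Row H1: the first cohomology of a convex set of chambers vanishes. -/

namespace Pool.Agent.MP_df844f_gt

namespace H1

open Classical in
/-- A chosen descent towards `b`. -/
noncomputable def tt (b x : W) : S := if h : x ≠ b then Classical.choose (exists_desc h) else 0

theorem tt_desc {b x : W} (h : x ≠ b) : Desc b x (tt b x) := by
  unfold tt
  rw [dif_pos h]
  exact Classical.choose_spec (exists_desc h)

/-- Sum of `c` along `n` chosen descents. -/
noncomputable def ph (c : S → W → F2) (b : W) : ℕ → W → F2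
  | 0, _ => 0
  | n + 1, x => c (tt b x) x + ph c b n (g (tt b x) * x)

theorem ph_step (c : S → W → F2) {b x : W} (h : x ≠ b) :
    ph c b (d b x) x = c (tt b x) x + ph c b (d b (g (tt b x) * x)) (g (tt b x) * x) := by
  rw [← (tt_desc h).d_eq]
  rfl

theorem desc_sq {b x : W} {s t : S} (hs : Desc b x s) (ht : Desc b x t) (h : adj s t) :
    Desc b (g t * x) s := by
  rw [desc_iff, wall_adj h, Sep_step_of_mem (desc_iff.1 ht), Finset.mem_erase]
  exact ⟨fun k => adj_ne h (wall_inj k), desc_iff.1 hs⟩

theorem f2a : ∀ a p q : F2, p = a + q → a = p + q := by decide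

theorem f2b : ∀ a a' e e' p q r z : F2, a + a' + e + e' = 0 → p = e + r → a' = r + z →
    e' = q + z → a = p + q := by decide

end H1

open H1 in
theorem h1 : H1S := by
  intro K hK c hsym hsq
  rcases K.eq_empty_or_nonempty with rfl | ⟨b, hb⟩
  · exact ⟨fun _ => 0, fun s x hx => hx.elim⟩
  have down : ∀ x ∈ K, ∀ s, Desc b x s → g s * x ∈ K := fun x hx s hs => hK b hb x hx _ hs.btw
  have key : ∀ n, ∀ x ∈ K, d b x = n → ∀ s, Desc b x s →
      c s x = ph c b (d b x) x + ph c b (d b (g s * x)) (g s * x) := by
    intro n
    induction n using Nat.strong_induction_on with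
    | _ n ih =>
      intro x hx hn s hs
      have hne : x ≠ b := by
        rintro rfl
        have := hs.d_eq
        rw [d_self] at this
        omega
      have ht := tt_desc hne
      have e := ph_step c hne
      by_cases k : s = H1.tt b x
      · subst k
        exact f2a _ _ _ e
      have ha := desc_adj hs ht k
      have d1 := desc_sq hs ht ha
      have d2 := desc_sq ht hs (adj_symm ha)
      have i1 := ih _ (by have := ht.d_eq; omega) _ (down x hx _ ht) rfl s d1
      have i2 := ih _ (by have := hs.d_eq; omega) _ (down x hx _ hs) rfl _ d2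
      have ec : g (H1.tt b x) * (g s * x) = g s * (g (H1.tt b x) * x) := by
        rw [← mul_assoc, ← mul_assoc, g_comm ha]
      rw [ec] at i2
      exact f2b _ _ _ _ _ _ _ _
        (hsq s _ x ha hx (down x hx _ hs) (down x hx _ ht) (down _ (down x hx _ ht) _ d1)) e i1 i2
  refine ⟨fun x => ph c b (d b x) x, fun s x hx hx' => ?_⟩
  by_cases k : Desc b x s
  · exact key _ x hx rfl s k
  · have e : g s * (g s * x) = x := by rw [← mul_assoc, g_mul_self, one_mul]
    have k' : Desc b (g s * x) s := by
      unfold Desc
      rw [e, d_eq_of_not_desc k]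
      omega
    have := key _ _ hx' rfl s k'
    rw [e, hsym s x hx hx'] at this
    rw [this, add_comm]

end Pool.Agent.MP_df844f_gt
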