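import Pool.Agent.MP_df844f_gt.SpecW

/-! The second cohomology of the Davis complex of `W` vanishes. -/

namespace Pool.Agent.MP_df844f_gt

namespace H2

theorem desc_adj_iff {b x : W} {s t : S} (h : adj s t) : Desc b (g t * x) s ↔ Desc b x s := by
  rw [desc_iff, desc_iff, wall_adj h, mem_Sep_step]
  have : wall s x ≠ wall t x := fun k => adj_ne h (wall_inj k)
  simp [this]

theorem desc_self_iff {b x : W} {s : S} : Desc b (g s * x) s ↔ ¬ Desc b x s := by
  rw [desc_iff, desc_iff, wall_g_mul, mem_Sep_step]
  simp

theorem swap {s t : S} (h : adj s t) (x : W) : g s * (g t * x) = g t * (g s * x) := by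
  rw [← mul_assoc, g_comm h, mul_assoc]

open Classical in
/-- A chosen descent. -/
noncomputable def s0 (x : W) : S := if h : ∃ s, Desc 1 x s then Classical.choose h else 0

theorem desc_s0 {x : W} {s : S} (h : Desc 1 x s) : Desc 1 x (s0 x) := by
  have k : ∃ s, Desc 1 x s := ⟨s, h⟩
  unfold s0
  rw [dif_pos k]
  exact Classical.choose_spec k

/-- The primitive, with fuel. -/
noncomputable def En (z : S → S → W → F2) : ℕ → W → S → F2
  | 0, _, _ => 0
  | n + 1, x, s =>
    if s = s0 x then 0 else z s (s0 x) x + En z n (g (s0 x) * x) s + En z n (g s * x) (s0 x)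

/-- The primitive on the edges leading down from `x`. -/
noncomputable def E (z : S → S → W → F2) (x : W) (s : S) : F2 := En z (d 1 x) x s

theorem E_s0 (z : S → S → W → F2) (x : W) : E z x (s0 x) = 0 := by
  unfold E
  cases d 1 x with
  | zero => rfl
  | succ n => simp [En]

theorem E_rec (z : S → S → W → F2) {x : W} {s : S} (h : Desc 1 x s) (hne : s ≠ s0 x) :
    E z x s = z s (s0 x) x + E z (g (s0 x) * x) s + E z (g s * x) (s0 x) := by
  have h1 := h.d_eq
  have h2 := (desc_s0 h).d_eq
  have h3 : d 1 (g (s0 x) * x) = d 1 (g s * x) := by omega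
  unfold E
  rw [← h1, h3, En, if_neg hne]

theorem top (z : S → S → W → F2) (h1 : ∀ s t x, adj s t → z s t x = z t s x)
    (h3 : ∀ s t u x, adj s t → adj t u → adj s u →
      z s t x + z s t (g u * x) + z t u x + z t u (g s * x) + z s u x + z s u (g t * x) = 0) :
    ∀ (n : ℕ) (x : W), d 1 x = n → ∀ s t, Desc 1 x s → Desc 1 x t → s ≠ t →
      z s t x = E z x s + E z (g t * x) s + E z x t + E z (g s * x) t := by
  intro n
  induction n with
  | zero =>
    intro x hx s t hs _ _
    have := hs.d_eq
    omega
  | succ n ih =>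
    intro x hx s t hs ht hne
    have hst := desc_adj hs ht hne
    have hu := desc_s0 hs
    by_cases c1 : t = s0 x
    · have a := E_rec z hs (c1 ▸ hne)
      have b := E_s0 z x
      rw [← c1] at a b
      rw [a, b]
      generalize z s t x = p, E z (g t * x) s = q, E z (g s * x) t = r
      revert p q r; decide
    by_cases c2 : s = s0 x
    · have a := E_rec z ht c1
      have b := E_s0 z x
      rw [← c2] at a b
      rw [a, b, h1 s t x hst]
      generalize z t s x = p, E z (g t * x) s = q, E z (g s * x) t = r
      revert p q r; decide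
    have a1 := E_rec z hs c2
    have a2 := E_rec z ht c1
    have hsu := desc_adj hs hu c2
    have htu := desc_adj ht hu c1
    generalize s0 x = u at hu a1 a2 hsu htu
    have b1 := ih (g u * x) (by have := hu.d_eq; omega) s t ((desc_adj_iff hsu).2 hs)
      ((desc_adj_iff htu).2 ht) hne
    have b2 := ih (g s * x) (by have := hs.d_eq; omega) t u
      ((desc_adj_iff (adj_symm hst)).2 ht) ((desc_adj_iff (adj_symm hsu)).2 hu) (adj_ne htu)
    have b3 := ih (g t * x) (by have := ht.d_eq; omega) s u ((desc_adj_iff hst).2 hs)
      ((desc_adj_iff (adj_symm htu)).2 hu) (adj_ne hsu)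
    have k := h3 s t u x hst htu hsu
    rw [swap htu, swap hsu] at b1
    rw [swap hst] at b3
    have two : (2 : F2) = 0 := by decide
    linear_combination k - b1 - b2 - b3 - a1 - a2 -
      (z t u x + z s u x + E z (g u * x) s + E z (g u * (g t * x)) s + E z (g u * x) t +
        E z (g u * (g s * x)) t + E z (g s * x) t + E z (g s * x) u + E z (g t * (g s * x)) u +
        E z (g t * x) s + E z (g t * x) u + E z (g u * x) s + E z (g u * x) t +
        E z (g s * x) u + E z (g t * x) u - E z (g u * x) s - E z (g u * x) t -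
        E z (g s * x) u - E z (g t * x) u) * two

end H2

open H2 in
theorem h2 : H2S := by
  classical
  intro z h1 h2 h3
  let η : S → W → F2 := fun s x => if Desc 1 x s then E z x s else E z (g s * x) s
  have e1 : ∀ s x, η s (g s * x) = η s x := by
    intro s x
    by_cases c : Desc 1 x s
    · have c' : ¬ Desc 1 (g s * x) s := fun k => desc_self_iff.1 k c
      simp only [η, if_pos c, if_neg c', g_mul_g_mul]
    · have c' : Desc 1 (g s * x) s := desc_self_iff.2 c
      simp only [η, if_pos c', if_neg c]
  refine ⟨η, e1, ?_⟩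
  have mv : ∀ s t x, adj s t →
      z s t (g s * x) = η s (g s * x) + η s (g t * (g s * x)) + η t (g s * x) +
        η t (g s * (g s * x)) →
      z s t x = η s x + η s (g t * x) + η t x + η t (g s * x) := by
    intro s t x h k
    rw [h2 s t x h, e1, ← swap h, e1, g_mul_g_mul] at k
    rw [k]; ring
  have sy : ∀ s t x, adj s t → z t s x = η t x + η t (g s * x) + η s x + η s (g t * x) →
      z s t x = η s x + η s (g t * x) + η t x + η t (g s * x) := by
    intro s t x h k
    rw [h1 s t x h, k]; ring
  have t2 : ∀ s t x, adj s t → Desc 1 x s → Desc 1 x t →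
      z s t x = η s x + η s (g t * x) + η t x + η t (g s * x) := by
    intro s t x h hs ht
    have a := (desc_adj_iff h).2 hs
    have b := (desc_adj_iff (adj_symm h)).2 ht
    simp only [η, if_pos hs, if_pos ht, if_pos a, if_pos b]
    exact top z h1 h3 _ x rfl s t hs ht (adj_ne h)
  have t1 : ∀ s t x, adj s t → Desc 1 x t →
      z s t x = η s x + η s (g t * x) + η t x + η t (g s * x) := by
    intro s t x h ht
    by_cases c : Desc 1 x s
    · exact t2 s t x h c ht
    · exact mv s t x h (t2 s t _ h (desc_self_iff.2 c) ((desc_adj_iff (adj_symm h)).2 ht))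
  intro s t x h
  by_cases c : Desc 1 x t
  · exact t1 s t x h c
  · exact sy s t x h (mv t s x (adj_symm h)
      (sy t s _ (adj_symm h) (t1 s t _ h (desc_self_iff.2 c))))

end Pool.Agent.MP_df844f_gt
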