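import Pool.Agent.MP_df844f_gt.SpecW

/-! The hull of a finite set is finite, with a linear bound in the number of separating walls. -/

namespace Pool.Agent.MP_df844f_gt

namespace Hull

/-- The far side of a wall has a gate. -/
theorem gate (b r : W) (h : ∃ z, r ∈ Sep b z) :
    ∃ y, r ∈ Sep b y ∧ ∀ z, r ∈ Sep b z → Sep b y ⊆ Sep b z := by
  classical
  have h0 : ∃ n, ∃ z, r ∈ Sep b z ∧ d b z = n := by
    obtain ⟨z, hz⟩ := h
    exact ⟨_, z, hz, rfl⟩
  obtain ⟨y, hy, hd⟩ := Nat.find_spec h0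
  refine ⟨y, hy, fun z hz => ?_⟩
  obtain ⟨m, hm⟩ := exists_meet b z _ y rfl
  have h1 : r ∈ Sep b m := by rw [hm]; exact Finset.mem_inter.2 ⟨hy, hz⟩
  have h2 : Nat.find h0 ≤ d b m := Nat.find_min' h0 ⟨m, h1, rfl⟩
  rw [← hd, ← card_Sep, ← card_Sep, hm] at h2
  have h3 : Sep b y ∩ Sep b z = Sep b y :=
    Finset.eq_of_subset_of_card_le Finset.inter_subset_left h2
  exact Finset.inter_eq_left.1 h3

/-- Joins inside an interval. -/
theorem join (b x : W) (u : S → W) (T : Finset S) (h : ∀ s ∈ T, Sep b (u s) ⊆ Sep b x) :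
    ∃ w, Sep b w = T.biUnion fun s => Sep b (u s) := by
  induction T using Finset.induction_on with
  | empty => exact ⟨b, by simp [Sep_self]⟩
  | insert s T hs ih =>
    obtain ⟨w, hw⟩ := ih fun t ht => h t (Finset.mem_insert_of_mem ht)
    have h1 : Sep b w ⊆ Sep b x := by
      rw [hw]
      exact Finset.biUnion_subset.2 fun t ht => h t (Finset.mem_insert_of_mem ht)
    have h2 := h s (Finset.mem_insert_self _ _)
    obtain ⟨m, hm⟩ := exists_med (u s) w x
    refine ⟨m, ?_⟩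
    rw [Finset.biUnion_insert, ← hw]
    ext r
    have a1 := @h1 r
    have a2 := @h2 r
    have a3 := hm r
    simp only [Finset.mem_union, mem_Sep] at a1 a2 ⊢
    tauto

/-- Two points of an interval: the smaller difference has at most three walls. -/
theorem diff (h : K44S) {b x p q : W} (hp : Sep b p ⊆ Sep b x) (hq : Sep b q ⊆ Sep b x)
    (hd : d b q ≤ d b p) : (Sep b q \ Sep b p).card ≤ 3 := by
  by_contra k
  have e1 := Finset.card_sdiff_add_card_inter (Sep b q) (Sep b p)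
  have e2 := Finset.card_sdiff_add_card_inter (Sep b p) (Sep b q)
  rw [Finset.inter_comm, card_Sep] at e2
  rw [card_Sep] at e1
  refine h (Sep b q \ Sep b p) (Sep b p \ Sep b q) (by omega) (by omega) fun u hu v hv => ?_
  rw [Finset.mem_sdiff] at hu hv
  have a1 := hq hu.1
  have a2 := hp hv.1
  refine cross_of_four (a := b) (b := p) (c := q) (e := x) hu.2 ?_ hu.1 hv.2 ?_ hv.1
  · have := hu.1
    simp only [mem_Sep] at a1 this ⊢; tauto
  · have := hv.1
    simp only [mem_Sep] at a2 this ⊢; tauto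

/-- Every chamber is close to the gate of one of its walls. -/
theorem near (hF : FactS) (h : K44S) (b : W) (G : W → W)
    (hG : ∀ r, (∃ z, r ∈ Sep b z) → r ∈ Sep b (G r) ∧ ∀ z, r ∈ Sep b z → Sep b (G r) ⊆ Sep b z)
    {x : W} (hx : x ≠ b) : ∃ r ∈ Sep b x, d (G r) x ≤ 6 := by
  classical
  obtain ⟨D, hD⟩ : ∃ D : Finset S, ∀ s, s ∈ D ↔ wall s x ∈ Sep b x :=
    ⟨Finset.univ.filter fun s => wall s x ∈ Sep b x, by simp⟩
  have hc : D.card ≤ 3 := hF.clq D fun s hs t ht hne =>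
    desc_adj (desc_iff.2 ((hD s).1 hs)) (desc_iff.2 ((hD t).1 ht)) hne
  have hn : D.Nonempty := by
    obtain ⟨s, hs⟩ := exists_desc hx
    exact ⟨s, (hD s).2 (desc_iff.1 hs)⟩
  have hsub : ∀ s ∈ D, Sep b (G (wall s x)) ⊆ Sep b x := fun s hs =>
    (hG _ ⟨x, (hD s).1 hs⟩).2 x ((hD s).1 hs)
  obtain ⟨s0, hs0, hmax⟩ := Finset.exists_max_image D (fun s => d b (G (wall s x))) hn
  obtain ⟨w, hw⟩ := join b x (fun s => G (wall s x)) D hsub
  have hxw : Sep b x ⊆ Sep b w := by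
    by_contra k
    obtain ⟨s, h1, h2⟩ := exists_desc_of_not_btw k
    apply h2
    rw [hw]
    exact Finset.mem_biUnion.2 ⟨s, (hD s).2 h1, (hG _ ⟨x, h1⟩).1⟩
  refine ⟨wall s0 x, (hD s0).1 hs0, ?_⟩
  rw [← card_Sep]
  have h1 : Sep (G (wall s0 x)) x ⊆
      (D.erase s0).biUnion fun s => Sep b (G (wall s x)) \ Sep b (G (wall s0 x)) := by
    intro p hp
    have a1 := @hsub s0 hs0 p
    have a2 : p ∈ Sep b x ∧ p ∉ Sep b (G (wall s0 x)) := by
      simp only [mem_Sep] at a1 hp ⊢; tauto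
    have a3 := hxw a2.1
    rw [hw] at a3
    obtain ⟨s, hs, a4⟩ := Finset.mem_biUnion.1 a3
    refine Finset.mem_biUnion.2 ⟨s, Finset.mem_erase.2 ⟨?_, hs⟩, Finset.mem_sdiff.2 ⟨a4, a2.2⟩⟩
    intro e
    rw [e] at a4
    exact a2.2 a4
  have h2 := Finset.card_biUnion_le_card_mul (D.erase s0)
    (fun s => Sep b (G (wall s x)) \ Sep b (G (wall s0 x))) 3 fun s hs =>
      diff h (hsub s0 hs0) (hsub s (Finset.mem_of_mem_erase hs))
        (hmax s (Finset.mem_of_mem_erase hs))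
  have h3 := Finset.card_le_card h1
  rw [Finset.card_erase_of_mem hs0] at h2
  omega

theorem sep_mem {F : Finset W} {b x r : W} (hb : b ∈ F) (hx : x ∈ hull F) (hr : r ∈ Sep b x) :
    r ∈ sepW F := by
  by_contra k
  have h1 : ∀ a ∈ F, r ∉ Sep b a := fun a ha e =>
    k (Finset.mem_biUnion.2 ⟨b, hb, Finset.mem_biUnion.2 ⟨a, ha, e⟩⟩)
  have h2 := hx r
  rw [mem_Sep] at hr
  by_cases c : r ∈ N b
  · have := h2.1 fun a ha => by
      have := h1 a ha
      rw [mem_Sep] at this; tauto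
    tauto
  · have := h2.2 fun a ha => by
      have := h1 a ha
      rw [mem_Sep] at this; tauto
    tauto

end Hull

theorem hullS (hF : FactS) (h : K44S) (hb : BallS) : HullS := by
  classical
  rintro F ⟨b, hbF⟩
  have h0 : ∀ r, ∃ y, (∃ z, r ∈ Sep b z) →
      r ∈ Sep b y ∧ ∀ z, r ∈ Sep b z → Sep b y ⊆ Sep b z := by
    intro r
    by_cases c : ∃ z, r ∈ Sep b z
    · obtain ⟨y, hy⟩ := Hull.gate b r c
      exact ⟨y, fun _ => hy⟩
    · exact ⟨b, fun k => absurd k c⟩
  choose G hG using h0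
  choose B hB1 hB2 using fun c => hb c 6
  refine ⟨(insert b ((sepW F).biUnion fun r => B (G r))).filter (· ∈ hull F), ?_, ?_⟩
  · ext x
    simp only [Finset.coe_filter, Set.mem_ofPred_eq]
    refine ⟨fun k => k.2, fun hx => ⟨?_, hx⟩⟩
    by_cases c : x = b
    · rw [c]; exact Finset.mem_insert_self _ _
    · obtain ⟨r, hr, hd⟩ := Hull.near hF h b G hG c
      exact Finset.mem_insert_of_mem
        (Finset.mem_biUnion.2 ⟨r, Hull.sep_mem hbF hx hr, (hB2 _ _).2 hd⟩)
  · refine (Finset.card_filter_le _ _).trans ((Finset.card_insert_le _ _).trans ?_)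
    have := Finset.card_biUnion_le_card_mul (sepW F) (fun r => B (G r)) (13 ^ 6)
      fun r _ => hB1 _
    rw [add_comm, mul_comm]
    exact Nat.add_le_add_left this 1

end Pool.Agent.MP_df844f_gt
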