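import Pool.Agent.MP_df844f_gt.w.T4

namespace Pool.Agent.MP_df844f_gt

namespace K44

/-- Geodesic words. -/
inductive Geo : W → List S → W → Prop
  | nil (o : W) : Geo o [] o
  | cons {o p : W} {ω : List S} (s : S) : wall s o ∈ Sep o p → Geo (g s * o) ω p →
      Geo o (s :: ω) p

theorem exists_geo (p : W) : ∀ (n : ℕ) (o : W), d p o = n → ∃ ω, Geo o ω p := by
  intro n
  induction n with
  | zero => intro o h; rw [d_eq_zero] at h; subst h; exact ⟨[], Geo.nil _⟩
  | succ n ih =>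
    intro o h
    have hne : o ≠ p := by intro e; rw [e, d_self] at h; omega
    obtain ⟨s, hs⟩ := exists_desc hne
    obtain ⟨ω, hω⟩ := ih (g s * o) (by have := hs.d_eq; omega)
    exact ⟨s :: ω, Geo.cons s (by rw [Sep_comm]; exact desc_iff.1 hs) hω⟩

theorem mem_step (s : S) (o p r : W) :
    r ∈ Sep (g s * o) p ↔ ¬ (r ∈ Sep o p ↔ r = wall s o) := by
  rw [Sep_comm, mem_Sep_step, Sep_comm]

theorem ladder {x : W} {t : S} {o p : W} {ω : List S} (h : Geo o ω p) :
    Sep o p ⊆ Sep o x → wall t o ∈ Sep o x → wall t o ∉ Sep o p →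
    (∀ s ∈ ω, adj s t) ∧ Geo (g t * o) ω (g t * p) ∧ wall t p = wall t o := by
  induction h with
  | nil o => intro _ _ _; exact ⟨by simp, Geo.nil _, rfl⟩
  | @cons o p ω s hs _ ih =>
    intro h1 h2 h3
    have hne : s ≠ t := by intro e; subst e; exact h3 hs
    have hw : wall t o ≠ wall s o := fun e => hne (wall_inj e).symm
    have ha : adj s t := desc_adj (b := x) (x := o)
      (desc_iff.2 (by rw [Sep_comm]; exact h1 hs)) (desc_iff.2 (by rw [Sep_comm]; exact h2)) hne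
    have e1 : wall t (g s * o) = wall t o := wall_adj (adj_symm ha) o
    obtain ⟨k1, k2, k3⟩ := ih
      (fun r hr => by
        rw [mem_step] at hr ⊢
        have a := @h1 r
        by_cases e : r = wall s o
        · subst e; simp [hs] at hr
        · simp only [e, iff_false, not_not] at hr ⊢; exact a hr)
      (by rw [e1, mem_step]; simp [h2, hw]) (by rw [e1, mem_step]; simp [h3, hw])
    rw [e1] at k3
    refine ⟨?_, Geo.cons s ?_ ?_, k3⟩
    · intro u hu
      rcases List.mem_cons.1 hu with rfl | hu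
      · exact ha
      · exact k1 u hu
    · rw [wall_adj ha, mem_step, mem_Sep_step, k3]
      simp [hs, hw.symm]
    · rwa [← mul_assoc, g_comm ha, mul_assoc]

theorem rect {x : W} {ω : List S} {o q : W} {η : List S} (h : Geo o η q) :
    ∀ p, Geo o ω p → Sep o p ⊆ Sep o x → Sep o q ⊆ Sep o x → (∀ r ∈ Sep o p, r ∉ Sep o q) →
    ∀ s ∈ ω, ∀ t ∈ η, adj s t := by
  induction h with
  | nil o => intro _ _ _ _ _ s _ t ht; simp at ht
  | @cons o q η t ht _ ih =>
    intro p hp h1 h2 h3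
    obtain ⟨k1, k2, k3⟩ := ladder hp h1 (h2 ht) fun k => h3 _ k ht
    have e : ∀ r, r ∈ Sep (g t * o) (g t * p) ↔ r ∈ Sep o p := by
      intro r; rw [mem_step, mem_Sep_step, k3]; tauto
    have := ih (g t * p) k2
      (fun r hr => by
        rw [e] at hr
        rw [mem_step]
        have : r ≠ wall t o := fun k => h3 r hr (k ▸ ht)
        simp [h1 hr, this])
      (fun r hr => by
        rw [mem_step] at hr ⊢
        have a := @h2 r
        by_cases e : r = wall t o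
        · subst e; simp [ht] at hr
        · simp only [e, iff_false, not_not] at hr ⊢; exact a hr)
      (fun r hr => by
        rw [e] at hr
        rw [mem_step]
        have : r ≠ wall t o := fun k => h3 r hr (k ▸ ht)
        simp [h3 r hr, this])
    intro s hs u hu
    rcases List.mem_cons.1 hu with rfl | hu
    · exact k1 s hs
    · exact this s hs u hu

theorem walls {o p : W} {ω : List S} (h : Geo o ω p) :
    (∀ s ∈ ω, ∀ t ∈ ω, s ≠ t → adj s t) → ∀ r ∈ Sep o p, ∃ s ∈ ω, r = wall s o := by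
  induction h with
  | nil o => intro _ r hr; rw [Sep_self] at hr; simp at hr
  | @cons o p ω s hs _ ih =>
    intro hc r hr
    by_cases e : r = wall s o
    · exact ⟨s, List.mem_cons_self, e⟩
    obtain ⟨t, ht, k⟩ := ih (fun a ha b hb => hc a (List.mem_cons_of_mem _ ha) b
      (List.mem_cons_of_mem _ hb)) r (by rw [mem_step]; simp [hr, e])
    by_cases e2 : t = s
    · subst e2; rw [wall_g_mul] at k; exact absurd k e
    · rw [wall_adj (hc t (List.mem_cons_of_mem _ ht) s List.mem_cons_self e2)] at k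
      exact ⟨t, List.mem_cons_of_mem _ ht, k⟩

theorem cross_adj {s t : S} (h : adj s t) (o : W) : Cross (wall s o) (wall t o) := by
  have hw : wall s o ≠ wall t o := fun e => adj_ne h (wall_inj e)
  refine cross_of_four (a := o) (b := g t * o) (c := g s * o) (e := g s * (g t * o))
    ?_ ?_ ?_ ?_ ?_ ?_
  · rw [Sep_g_mul]; simp [hw]
  · rw [← mul_assoc, g_comm h, mul_assoc, Sep_g_mul, wall_adj (adj_symm h)]; simp [hw]
  · rw [Sep_g_mul]; simp
  · rw [Sep_g_mul]; simp [hw.symm]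
  · rw [Sep_g_mul, wall_adj h]; simp [hw.symm]
  · rw [Sep_g_mul]; simp

theorem nonadj {o p a a' : W} {ω : List S} (h : Geo o ω p) (ha : a ∈ Sep o p) (ha' : a' ∈ Sep o p)
    (hne : a ≠ a') (hn : ¬ Cross a a') : ∃ s ∈ ω, ∃ t ∈ ω, s ≠ t ∧ ¬ adj s t := by
  by_contra k
  have hc : ∀ s ∈ ω, ∀ t ∈ ω, s ≠ t → adj s t := by
    intro s hs t ht e; by_contra k'; exact k ⟨s, hs, t, ht, e, k'⟩
  obtain ⟨s, hs, rfl⟩ := walls h hc a ha
  obtain ⟨t, ht, rfl⟩ := walls h hc a' ha'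
  exact hn (cross_adj (hc s hs t ht fun e => hne (e ▸ rfl)) o)

theorem orient {a a' : W} (h : ¬ Cross a a') :
    ∃ P Q : Prop, ∀ x, ¬ ((a ∈ N x ↔ P) ∧ (a' ∈ N x ↔ Q)) := by
  by_contra k
  have k' : ∀ P Q : Prop, ∃ x, (a ∈ N x ↔ P) ∧ (a' ∈ N x ↔ Q) := by
    intro P Q; by_contra e; exact k ⟨P, Q, fun x hx => e ⟨x, hx⟩⟩
  obtain ⟨x1, h1⟩ := k' True True
  obtain ⟨x2, h2⟩ := k' True False
  obtain ⟨x3, h3⟩ := k' False True
  obtain ⟨x4, h4⟩ := k' False False
  exact h ⟨⟨x1, by tauto⟩, ⟨x2, by tauto⟩, ⟨x3, by tauto⟩, ⟨x4, by tauto⟩⟩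

theorem sides {a a' o x u v p q o' : W} {P Q : Prop}
    (h : ∀ x, ¬ ((a ∈ N x ↔ P) ∧ (a' ∈ N x ↔ Q))) (ho : a ∈ N o ↔ P) (hx : a' ∈ N x ↔ Q)
    (hu : a' ∈ N u ↔ Q) (hv : a ∈ N v ↔ P) (hp : IsMed o x u p) (hq : IsMed o x v q)
    (hm : ∀ r, (r ∈ N o ↔ r ∈ N q) → (r ∈ N o' ↔ r ∈ N o)) : a ∈ Sep o' p ∧ a' ∈ Sep o' p := by
  have h1 := h o; have h2 := h x; have h3 := h u; have h4 := h v
  have a1 := hp a; have a2 := hq a; have a3 := hm a
  have b1 := hp a'; have b2 := hq a'; have b3 := hm a'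
  rw [mem_Sep, mem_Sep]
  constructor
  · grind
  · grind

theorem k22 (hF : FactS) {a a' b b' : W} (ha : a ≠ a') (hb : b ≠ b') (na : ¬ Cross a a')
    (nb : ¬ Cross b b') (c1 : Cross a b) (c2 : Cross a b') (c3 : Cross a' b) (c4 : Cross a' b') :
    False := by
  obtain ⟨P, P', hP⟩ := orient na
  obtain ⟨Q, Q', hQ⟩ := orient nb
  obtain ⟨o, o1, o2⟩ := c1.side P Q
  obtain ⟨x, x1, x2⟩ := c4.side P' Q'
  obtain ⟨u, u1, u2⟩ := c3.side P' Q
  obtain ⟨v, v1, v2⟩ := c2.side P Q'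
  obtain ⟨p, hp⟩ := exists_med o x u
  obtain ⟨q, hq⟩ := exists_med o x v
  obtain ⟨m, hm⟩ := exists_med o p q
  obtain ⟨s1, s2⟩ := sides (o' := m) hP o1 x1 u1 v1 hp hq fun r => by have := hm r; grind
  obtain ⟨t1, t2⟩ := sides (o' := m) hQ o2 x2 v2 u2 hq hp fun r => by have := hm r; grind
  obtain ⟨ω, hω⟩ := exists_geo p _ m rfl
  obtain ⟨η, hη⟩ := exists_geo q _ m rfl
  have key := rect (x := x) hη p hω
    (fun r => by have := hm r; have := hp r; simp only [mem_Sep]; grind)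
    (fun r => by have := hm r; have := hq r; simp only [mem_Sep]; grind)
    (fun r => by have := hm r; simp only [mem_Sep]; grind)
  obtain ⟨s, hs, s', hs', e1, n1⟩ := nonadj hω s1 s2 ha na
  obtain ⟨t, ht, t', ht', e2, n2⟩ := nonadj hη t1 t2 hb nb
  exact (hF.nosq s t s' t' (key s hs t ht) (adj_symm (key s' hs' t ht)) (key s' hs' t' ht')
    (adj_symm (key s hs t' ht')) e1 e2).elim n1 n2

end K44

theorem k44 (hF : FactS) (h4 : T4S) : K44S := by
  intro C C' h h' hc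
  have ex : ∀ D : Finset W, 4 ≤ D.card → ∃ r ∈ D, ∃ q ∈ D, r ≠ q ∧ ¬ Cross r q := by
    intro D hD
    by_contra k
    have := h4 D fun r hr q hq e => by by_contra k'; exact k ⟨r, hr, q, hq, e, k'⟩
    omega
  obtain ⟨a, ha, a', ha', e1, n1⟩ := ex C h
  obtain ⟨b, hb, b', hb', e2, n2⟩ := ex C' h'
  exact K44.k22 hF e1 e2 n1 n2 (hc a ha b hb) (hc a ha b' hb') (hc a' ha' b hb) (hc a' ha' b' hb')

end Pool.Agent.MP_df844f_gt
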