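import Pool.Agent.MP_df844f_gt.SpecW

namespace Pool.Agent.MP_df844f_gt

theorem tau_eq_of_short (F : Finset W) (h : ∀ r ∈ sepW F, (cls F r).card < 140) :
    tau F = (sepW F).card := by
  unfold tau
  rw [Finset.card_eq_sum_card_image (ty F) (sepW F)]
  refine Finset.sum_congr rfl fun t ht => ?_
  obtain ⟨r, hr, rfl⟩ := Finset.mem_image.1 ht
  exact min_eq_right (h r hr).le

theorem qS (hH : HullS) (hG : GCvxS) (hJ : GJoinS) (hT : TauS) (hE : CutExS) (hS : CutSPS)
    (hC : CutTauS) : QS := by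
  have key : ∀ (n : ℕ) (F : Finset W), tau F = n → F.Nonempty →
      ∃ (Q : PS W) (ι : W → Q.Om), Gadget Q F ι ∧ Q.vol ≤ (13 ^ 6 + 1) * n + 1 := by
    intro n
    induction n using Nat.strong_induction_on with
    | _ n ih =>
      intro F hn hF
      by_cases hl : ∃ r ∈ sepW F, 140 ≤ (cls F r).card
      · obtain ⟨r, hr, h140⟩ := hl
        obtain ⟨a0, b0, uL, uR, hD⟩ := hE F r hr h140
        obtain ⟨s1, s2⟩ := hS F r a0 b0 uL uR hD
        have t1 := hC F r a0 b0 uL uR hD
        obtain ⟨QL, ιL, gL, vL⟩ := ih _ (by omega) (insert uL (F.filter fun a => r ∉ N a)) rfl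
          (Finset.insert_nonempty _ _)
        obtain ⟨QR, ιR, gR, vR⟩ := ih _ (by omega) (insert uR (F.filter fun a => r ∈ N a)) rfl
          (Finset.insert_nonempty _ _)
        obtain ⟨Q, ι, gQ, vQ⟩ := hJ QL QR _ _ uL uR ιL ιR gL gR s1 s2
        have e : (F.filter fun a => r ∉ N a) ∪ (F.filter fun a => r ∈ N a) = F := by
          rw [Finset.union_comm]; exact Finset.filter_union_filter_not_eq _ F
        rw [e] at gQ
        refine ⟨Q, ι, gQ, ?_⟩
        rw [hn] at t1
        generalize tau (insert uL (F.filter fun a => r ∉ N a)) = x at *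
        generalize tau (insert uR (F.filter fun a => r ∈ N a)) = y at *
        omega
      · obtain ⟨K, hK, hc⟩ := hH F hF
        have hs : F ⊆ K := fun a ha => by
          have := subset_hull F (Finset.mem_coe.2 ha)
          rw [← hK] at this; exact this
        obtain ⟨ι, hι⟩ := hG K F (hK ▸ cvx_hull F) hs (hF.mono hs)
        refine ⟨cvxPS K, ι, hι, ?_⟩
        have e := tau_eq_of_short F fun r hr => by by_contra k; exact hl ⟨r, hr, by omega⟩
        have v : (cvxPS K).vol = K.card := Nat.card_eq_finsetCard K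
        rw [v, ← hn, e]; omega
  obtain ⟨C, hC⟩ := hT
  refine ⟨(13 ^ 6 + 1) * C + 1, fun F hF => ?_⟩
  obtain ⟨Q, ι, h1, h2⟩ := key _ F rfl hF
  refine ⟨Q, ι, h1, h2.trans ?_⟩
  have h3 := Nat.mul_le_mul_left (13 ^ 6 + 1) (hC F)
  have h4 := hF.card_pos
  rw [add_mul _ 1 F.card, mul_assoc]; omega

end Pool.Agent.MP_df844f_gt
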