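import Pool.Agent.MP_df844f_gt.SpecW

namespace Pool.Agent.MP_df844f_gt

theorem ball : BallS := by
  intro c R
  induction R with
  | zero => exact ⟨{c}, by simp, fun x => by
      rw [Finset.mem_singleton, Nat.le_zero, d_eq_zero, eq_comm]⟩
  | succ R ih =>
    obtain ⟨F, h1, h2⟩ := ih
    refine ⟨F ∪ (F ×ˢ (Finset.univ : Finset S)).image fun p => g p.2 * p.1, ?_, fun x => ?_⟩
    · refine (Finset.card_union_le _ _).trans ?_
      have : ((F ×ˢ (Finset.univ : Finset S)).image fun p => g p.2 * p.1).card ≤ F.card * 12 :=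
        Finset.card_image_le.trans (by simp)
      rw [pow_succ]; omega
    · simp only [Finset.mem_union, Finset.mem_image, Finset.mem_product, Finset.mem_univ, and_true,
        h2]
      constructor
      · rintro (h | ⟨⟨y, s⟩, h, rfl⟩)
        · omega
        · have := d_triangle c y (g s * y)
          rw [d_g_mul] at this
          simp only at h ⊢; omega
      · intro h
        by_cases e : x = c
        · left; rw [e, d_self]; omega
        · obtain ⟨s, hs⟩ := exists_desc e
          have := hs.d_eq
          exact Or.inr ⟨⟨g s * x, s⟩, by simp only; omega, by simp⟩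

theorem sp1 : SP1S := by
  intro a u b a' b' m hu ha hb hm C hC hn
  by_cases h : C ⊆ Sep a a'
  · exact ha C h hn
  refine hb C (fun q hq => ?_) hn
  obtain ⟨r, hr, hra⟩ := Finset.not_subset.1 h
  by_contra hqb
  have r1 := hC hr; have q1 := hC hq
  have r2 := hm r; have q2 := hm q
  have r3 := btw_iff'.1 hu r; have q3 := btw_iff'.1 hu q
  refine hn r hr q hq (cross_of_four (a := u) (b := b) (c := a) (e := a') ?_ ?_ ?_ ?_ ?_ ?_) <;>
    simp only [mem_Sep] at * <;> grind

theorem dehn (h : K44S) : DehnS := by
  intro o x y z c hy hx hz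
  have key : ∀ x : W, d o x ≤ d o y + c → (Sep o y \ Sep o x).card ≤ 3 → d x y ≤ 6 + c := by
    intro x hx h3
    have e : Sep x y = (Sep o x \ Sep o y) ∪ (Sep o y \ Sep o x) := by
      ext r; simp only [Finset.mem_union, Finset.mem_sdiff, mem_Sep]; tauto
    have h1 := Finset.card_sdiff_add_card_inter (Sep o x) (Sep o y)
    have h2 := Finset.card_sdiff_add_card_inter (Sep o y) (Sep o x)
    rw [Finset.inter_comm] at h2
    have h4 := Finset.card_union_le (Sep o x \ Sep o y) (Sep o y \ Sep o x)
    rw [← e] at h4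
    rw [card_Sep] at h1 h2 h4
    omega
  by_cases a : (Sep o y \ Sep o x).card ≤ 3
  · exact Or.inl (key x hx a)
  by_cases b : (Sep o y \ Sep o z).card ≤ 3
  · exact Or.inr (by rw [d_comm]; exact key z hz b)
  refine absurd (fun r hr q hq => ?_) (h (Sep o y \ Sep o x) (Sep o y \ Sep o z) (by omega) (by omega))
  have r3 := btw_iff'.1 hy r; have q3 := btw_iff'.1 hy q
  refine cross_of_four (a := o) (b := x) (c := z) (e := y) ?_ ?_ ?_ ?_ ?_ ?_ <;>
    simp only [Finset.mem_sdiff, mem_Sep] at * <;> grind

end Pool.Agent.MP_df844f_gt
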