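import Pool.Agent.MP_df844f_gt.SpecW

/-! The truncated number of separating walls is linear in the number of points. -/

namespace Pool.Agent.MP_df844f_gt

namespace TauP

open Finset

/-- Truncated count of a finite set along the fibres of a map. -/
noncomputable def tf (X : Finset W) (f : W → Finset (W × W)) : ℕ :=
  ∑ t ∈ X.image f, min 140 (X.filter fun q => f q = t).card

theorem tau_eq (F : Finset W) : tau F = tf (sepW F) (ty F) := rfl

theorem tf_eq {X : Finset W} {f : W → Finset (W × W)} {U : Finset (Finset (W × W))}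
    (h : X.image f ⊆ U) : tf X f = ∑ t ∈ U, min 140 (X.filter fun q => f q = t).card := by
  unfold tf
  refine sum_subset h fun t _ ht => ?_
  have : (X.filter fun q => f q = t) = ∅ := by
    rw [filter_eq_empty_iff]
    intro q hq e
    exact ht (mem_image.2 ⟨q, hq, e⟩)
  rw [this]; simp

theorem tf_le_card (X : Finset W) (f : W → Finset (W × W)) : tf X f ≤ X.card := by
  rw [card_eq_sum_card_image f X]
  exact sum_le_sum fun t _ => min_le_right _ _

theorem tf_le_mul (X : Finset W) (f : W → Finset (W × W)) : tf X f ≤ 140 * (X.image f).card := by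
  unfold tf
  rw [mul_comm, ← smul_eq_mul, ← sum_const]
  exact sum_le_sum fun t _ => min_le_left _ _

theorem tf_union (A B : Finset W) (f : W → Finset (W × W)) : tf (A ∪ B) f ≤ tf A f + tf B f := by
  rw [tf_eq (X := A) (U := (A ∪ B).image f) (image_subset_image subset_union_left),
    tf_eq (X := B) (U := (A ∪ B).image f) (image_subset_image subset_union_right),
    ← sum_add_distrib]
  refine sum_le_sum fun t _ => ?_
  have := card_union_le (A.filter fun q => f q = t) (B.filter fun q => f q = t)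
  rw [← filter_union] at this
  omega

theorem tf_biUnion {ι : Type*} (I : Finset ι) (A : ι → Finset W) (f : W → Finset (W × W)) :
    tf (I.biUnion A) f ≤ ∑ i ∈ I, tf (A i) f := by
  classical
  induction I using Finset.induction_on with
  | empty => simp [tf]
  | insert i I hi ih =>
    rw [biUnion_insert, sum_insert hi]
    exact (tf_union _ _ _).trans (Nat.add_le_add_left ih _)

/-- The points of `F` on the same side of `r` as `p`. -/
noncomputable def sd (F : Finset W) (p r : W) : Finset W := F.filter fun a => r ∉ Sep p a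

theorem mem_sd {F : Finset W} {p r a : W} : a ∈ sd F p r ↔ a ∈ F ∧ (r ∈ N p ↔ r ∈ N a) := by
  unfold sd; rw [mem_filter, mem_Sep, not_not]

theorem sd_sub (F : Finset W) (p r : W) : sd F p r ⊆ F := filter_subset _ _

theorem mem_ty {F : Finset W} {r a b : W} :
    (a, b) ∈ ty F r ↔ a ∈ F ∧ b ∈ F ∧ ¬ (r ∈ N a ↔ r ∈ N b) := by
  unfold ty; rw [mem_filter, mem_product, mem_Sep, and_assoc]

theorem mem_sepW {F : Finset W} {r : W} :
    r ∈ sepW F ↔ ∃ a ∈ F, ∃ b ∈ F, ¬ (r ∈ N a ↔ r ∈ N b) := by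
  unfold sepW; simp only [mem_biUnion, mem_Sep]

theorem ty_eq_iff {F : Finset W} {r q : W} : ty F r = ty F q ↔
    ∀ a ∈ F, ∀ b ∈ F, ((r ∈ N a ↔ r ∈ N b) ↔ (q ∈ N a ↔ q ∈ N b)) := by
  constructor
  · intro h a ha b hb
    have := Finset.ext_iff.1 h (a, b)
    rw [mem_ty, mem_ty] at this
    tauto
  · intro h
    ext ⟨a, b⟩
    rw [mem_ty, mem_ty]
    by_cases ha : a ∈ F
    · by_cases hb : b ∈ F
      · have := h a ha b hb; tauto
      · tauto
    · tauto

theorem sd_eq_iff {F : Finset W} {p r q : W} : sd F p r = sd F p q ↔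
    ∀ a ∈ F, ((r ∈ N p ↔ r ∈ N a) ↔ (q ∈ N p ↔ q ∈ N a)) := by
  rw [Finset.ext_iff]
  refine forall_congr' fun a => ?_
  rw [mem_sd, mem_sd]; tauto

theorem sd_eq_iff' {F : Finset W} {p r q : W} : sd F p r = F \ sd F p q ↔
    ∀ a ∈ F, ((r ∈ N p ↔ r ∈ N a) ↔ ¬ (q ∈ N p ↔ q ∈ N a)) := by
  rw [Finset.ext_iff]
  refine forall_congr' fun a => ?_
  rw [mem_sdiff, mem_sd, mem_sd]; tauto

theorem ty_insert {F : Finset W} {p r q : W} (h : sd F p r = sd F p q) :
    ty (insert p F) r = ty (insert p F) q := by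
  rw [sd_eq_iff] at h
  have h' : ∀ a ∈ insert p F, ((r ∈ N p ↔ r ∈ N a) ↔ (q ∈ N p ↔ q ∈ N a)) := by
    intro a ha
    rcases mem_insert.1 ha with rfl | ha
    · tauto
    · exact h a ha
  rw [ty_eq_iff]
  intro a ha b hb
  have h1 := h' a ha
  have h2 := h' b hb
  tauto

theorem ty_of_sd {F : Finset W} {p r q : W} (h : sd F p r = sd F p q ∨ sd F p r = F \ sd F p q) :
    ty F r = ty F q := by
  rw [ty_eq_iff]
  intro a ha b hb
  rcases h with h | h
  · rw [sd_eq_iff] at h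
    have h1 := h a ha
    have h2 := h b hb
    grind
  · rw [sd_eq_iff'] at h
    have h1 := h a ha
    have h2 := h b hb
    grind

theorem sd_of_ty {F : Finset W} (p : W) {r q : W} (h : ty F r = ty F q) :
    sd F p r = sd F p q ∨ sd F p r = F \ sd F p q := by
  rw [ty_eq_iff] at h
  rw [sd_eq_iff, sd_eq_iff']
  by_contra k
  push Not at k
  obtain ⟨⟨a, ha, k1⟩, b, hb, k2⟩ := k
  have := h a ha b hb
  tauto

theorem card_image_le_two {F Y : Finset W} (p : W) (h : ∀ r ∈ Y, ∀ q ∈ Y, ty F r = ty F q) :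
    (Y.image (ty (insert p F))).card ≤ 2 := by
  by_contra k
  obtain ⟨_, h1, _, h2, _, h3, n12, n13, n23⟩ := two_lt_card.1 (not_le.1 k)
  obtain ⟨a, ha, rfl⟩ := mem_image.1 h1
  obtain ⟨b, hb, rfl⟩ := mem_image.1 h2
  obtain ⟨c, hc, rfl⟩ := mem_image.1 h3
  rcases sd_of_ty p (h a ha c hc) with e1 | e1
  · exact n13 (ty_insert e1)
  rcases sd_of_ty p (h b hb c hc) with e2 | e2
  · exact n23 (ty_insert e2)
  exact n12 (ty_insert (e1.trans e2.symm))

theorem cross_of {F : Finset W} {p r q a b c : W} (ha : a ∈ sd F p r) (ha' : a ∉ sd F p q)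
    (hb : b ∉ sd F p r) (hb' : b ∈ sd F p q) (hc : c ∈ F) (hc1 : c ∉ sd F p r)
    (hc2 : c ∉ sd F p q) : Cross r q := by
  rw [mem_sd] at ha ha' hb hb' hc1 hc2
  have a1 := ha.2
  have a2 : ¬ (q ∈ N p ↔ q ∈ N a) := fun k => ha' ⟨ha.1, k⟩
  have b1 : ¬ (r ∈ N p ↔ r ∈ N b) := fun k => hb ⟨hb'.1, k⟩
  have b2 := hb'.2
  have c1 : ¬ (r ∈ N p ↔ r ∈ N c) := fun k => hc1 ⟨hc, k⟩
  have c2 : ¬ (q ∈ N p ↔ q ∈ N c) := fun k => hc2 ⟨hc, k⟩
  clear ha ha' hb hb' hc1 hc2 hc
  unfold Cross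
  by_cases h1 : r ∈ N p <;> by_cases h2 : q ∈ N p
  · exact ⟨⟨p, h1, h2⟩, ⟨a, by grind⟩, ⟨b, by grind⟩, ⟨c, by grind⟩⟩
  · exact ⟨⟨a, by grind⟩, ⟨p, h1, h2⟩, ⟨c, by grind⟩, ⟨b, by grind⟩⟩
  · exact ⟨⟨b, by grind⟩, ⟨c, by grind⟩, ⟨p, h1, h2⟩, ⟨a, by grind⟩⟩
  · exact ⟨⟨c, by grind⟩, ⟨b, by grind⟩, ⟨a, by grind⟩, ⟨p, h1, h2⟩⟩

theorem sd_proper {F : Finset W} (p : W) {r : W} (h : r ∈ sepW F) :
    (∃ a, a ∈ sd F p r) ∧ ∃ b ∈ F, b ∉ sd F p r := by
  obtain ⟨a, ha, b, hb, k⟩ := mem_sepW.1 h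
  simp only [mem_sd]
  by_cases e : r ∈ N p ↔ r ∈ N a
  · exact ⟨⟨a, ha, e⟩, b, hb, by tauto⟩
  · exact ⟨⟨b, hb, by tauto⟩, a, ha, by tauto⟩

/-- At most twelve long classes are split by a new point. -/
theorem light_le (h4 : T4S) (h44 : K44S) (F : Finset W) (p : W) (R : Finset W)
    (hs : ∀ r ∈ R, r ∈ sepW F)
    (hh : ∀ r ∈ R, ∃ C : Finset W, 4 ≤ C.card ∧ ∀ q ∈ C, sd F p q = F \ sd F p r)
    (hi : ∀ r ∈ R, ∀ q ∈ R, ty F r = ty F q → r = q) : R.card ≤ 12 := by
  have below : ∀ r ∈ R, (R.filter fun q => sd F p q ⊂ sd F p r).card ≤ 3 := by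
    intro r hr
    by_contra k
    obtain ⟨C, hC, hC'⟩ := hh r hr
    refine h44 (R.filter fun q => sd F p q ⊂ sd F p r) C (by omega) hC fun q hq q' hq' => ?_
    obtain ⟨hq1, hq2⟩ := mem_filter.1 hq
    obtain ⟨⟨a, ha⟩, -⟩ := sd_proper p (hs q hq1)
    obtain ⟨-, b, hb, hb'⟩ := sd_proper p (hs r hr)
    obtain ⟨c, hc, hc'⟩ := exists_of_ssubset hq2
    have e := hC' q' hq'
    refine cross_of (a := a) (b := b) (c := c) ha ?_ (fun k => hb' (hq2.1 k)) ?_ (sd_sub _ _ _ hc)
      hc' ?_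
    · rw [e, mem_sdiff]; exact fun k => k.2 (hq2.1 ha)
    · rw [e, mem_sdiff]; exact ⟨hb, hb'⟩
    · rw [e, mem_sdiff]; exact fun k => k.2 hc
  set Mx := R.filter fun r => ∀ q ∈ R, ¬ sd F p r ⊂ sd F p q with hMx
  have top : Mx.card ≤ 3 := by
    refine h4 Mx fun r hr q hq hne => ?_
    obtain ⟨hr1, hr2⟩ := mem_filter.1 hr
    obtain ⟨hq1, hq2⟩ := mem_filter.1 hq
    have n1 : sd F p r ≠ sd F p q := fun e => hne (hi r hr1 q hq1 (ty_of_sd (Or.inl e)))
    have n2 : sd F p r ≠ F \ sd F p q := fun e => hne (hi r hr1 q hq1 (ty_of_sd (Or.inr e)))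
    obtain ⟨a, ha, ha'⟩ := not_subset.1 fun k => hr2 q hq1 (Finset.ssubset_iff_subset_ne.2 ⟨k, n1⟩)
    obtain ⟨b, hb, hb'⟩ :=
      not_subset.1 fun k => hq2 r hr1 (Finset.ssubset_iff_subset_ne.2 ⟨k, n1.symm⟩)
    have dj : ∀ c ∈ sd F p r, c ∉ sd F p q := by
      intro c hc hc'
      obtain ⟨C, hC, hC'⟩ := hh r hr1
      obtain ⟨D, hD, hD'⟩ := hh q hq1
      refine h44 C D hC hD fun x hx y hy => ?_
      have ex := hC' x hx
      have ey := hD' y hy
      refine cross_of (F := F) (p := p) (a := b) (b := a) (c := c) ?_ ?_ ?_ ?_ (sd_sub _ _ _ hc) ?_ ?_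
      · rw [ex, mem_sdiff]; exact ⟨sd_sub _ _ _ hb, hb'⟩
      · rw [ey, mem_sdiff]; exact fun k => k.2 hb
      · rw [ex, mem_sdiff]; exact fun k => k.2 ha
      · rw [ey, mem_sdiff]; exact ⟨sd_sub _ _ _ ha, ha'⟩
      · rw [ex, mem_sdiff]; exact fun k => k.2 hc
      · rw [ey, mem_sdiff]; exact fun k => k.2 hc'
    have : ∃ c ∈ F, c ∉ sd F p r ∧ c ∉ sd F p q := by
      by_contra k
      push Not at k
      refine n2 (Finset.ext fun c => ?_)
      rw [mem_sdiff]
      exact ⟨fun hc => ⟨sd_sub _ _ _ hc, dj c hc⟩, fun hc => by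
        by_contra k'
        exact hc.2 (k c hc.1 k')⟩
    obtain ⟨c, hc, hc1, hc2⟩ := this
    exact cross_of ha ha' hb' hb hc hc1 hc2
  have cov : R ⊆ Mx.biUnion fun r => insert r (R.filter fun q => sd F p q ⊂ sd F p r) := by
    intro q hq
    obtain ⟨r, hr, hmax⟩ := exists_max_image (R.filter fun r => sd F p q ⊆ sd F p r)
      (fun r => (sd F p r).card) ⟨q, mem_filter.2 ⟨hq, subset_rfl⟩⟩
    obtain ⟨hr1, hr2⟩ := mem_filter.1 hr
    refine mem_biUnion.2 ⟨r, mem_filter.2 ⟨hr1, fun x hx k => ?_⟩, ?_⟩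
    · have h1 := hmax x (mem_filter.2 ⟨hx, hr2.trans k.1⟩)
      have h2 := card_lt_card k
      omega
    · by_cases e : sd F p q = sd F p r
      · rw [hi q hq r hr1 (ty_of_sd (Or.inl e))]; exact mem_insert_self _ _
      · exact mem_insert_of_mem (mem_filter.2 ⟨hq, Finset.ssubset_iff_subset_ne.2 ⟨hr2, e⟩⟩)
  have h1 := card_le_card cov
  have h2 := card_biUnion_le_card_mul Mx
    (fun r => insert r (R.filter fun q => sd F p q ⊂ sd F p r)) 4 fun r hr =>
      (card_insert_le _ _).trans (Nat.succ_le_succ (below r (mem_filter.1 hr).1))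
  omega

theorem tau_insert (h4 : T4S) (h44 : K44S) (F : Finset W) (p : W) :
    tau (insert p F) ≤ tau F + 1960 := by
  set X := sepW F with hX
  have hsub : X ⊆ sepW (insert p F) := by
    intro r hr
    obtain ⟨a, ha, b, hb, k⟩ := mem_sepW.1 hr
    exact mem_sepW.2 ⟨a, mem_insert_of_mem ha, b, mem_insert_of_mem hb, k⟩
  have h0 : tf (sepW (insert p F) \ X) (ty (insert p F)) ≤ 280 := by
    refine (tf_le_mul _ _).trans ?_
    have := card_image_le_two (F := F) (Y := sepW (insert p F) \ X) p fun r hr q hq => by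
      rw [ty_eq_iff]
      intro a ha b hb
      have e1 : r ∈ N a ↔ r ∈ N b := by
        by_contra k
        exact (mem_sdiff.1 hr).2 (mem_sepW.2 ⟨a, ha, b, hb, k⟩)
      have e2 : q ∈ N a ↔ q ∈ N b := by
        by_contra k
        exact (mem_sdiff.1 hq).2 (mem_sepW.2 ⟨a, ha, b, hb, k⟩)
      tauto
    omega
  set Sp := (X.image (ty F)).filter fun t => 140 < (X.filter fun q => ty F q = t).card ∧
    1 < ((X.filter fun q => ty F q = t).image (ty (insert p F))).card with hSp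
  have h1 : Sp.card ≤ 12 := by
    have ex : ∀ t ∈ Sp, ∃ r, r ∈ X ∧ ty F r = t ∧
        ∃ C : Finset W, 4 ≤ C.card ∧ ∀ q ∈ C, sd F p q = F \ sd F p r := by
      intro t ht
      obtain ⟨-, hl, h2⟩ := mem_filter.1 ht
      obtain ⟨_, k1, _, k2, hne⟩ := one_lt_card.1 h2
      obtain ⟨q1, hq1, rfl⟩ := mem_image.1 k1
      obtain ⟨q2, hq2, rfl⟩ := mem_image.1 k2
      obtain ⟨a1, b1⟩ := mem_filter.1 hq1
      obtain ⟨a2, b2⟩ := mem_filter.1 hq2
      have e : sd F p q1 = F \ sd F p q2 :=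
        (sd_of_ty p (b1.trans b2.symm)).resolve_left fun k => hne (ty_insert k)
      have cov : (X.filter fun q => ty F q = t) ⊆ (X.filter fun q => sd F p q = F \ sd F p q1) ∪
          (X.filter fun q => sd F p q = F \ sd F p q2) := by
        intro q hq
        obtain ⟨a, b⟩ := mem_filter.1 hq
        rcases sd_of_ty p (b.trans b1.symm) with k | k
        · exact mem_union_right _ (mem_filter.2 ⟨a, k.trans e⟩)
        · exact mem_union_left _ (mem_filter.2 ⟨a, k⟩)
      have c1 := (card_le_card cov).trans (card_union_le _ _)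
      by_cases c : 4 ≤ (X.filter fun q => sd F p q = F \ sd F p q1).card
      · exact ⟨q1, a1, b1, _, c, fun q hq => (mem_filter.1 hq).2⟩
      · exact ⟨q2, a2, b2, X.filter fun q => sd F p q = F \ sd F p q2, by omega,
          fun q hq => (mem_filter.1 hq).2⟩
    choose! ρ hρ using ex
    have inj : Set.InjOn ρ Sp := fun t ht u hu e => by
      rw [← (hρ t ht).2.1, ← (hρ u hu).2.1, e]
    rw [← card_image_of_injOn inj]
    refine light_le h4 h44 F p _ ?_ ?_ ?_
    · intro r hr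
      obtain ⟨t, ht, rfl⟩ := mem_image.1 hr
      exact (hρ t ht).1
    · intro r hr
      obtain ⟨t, ht, rfl⟩ := mem_image.1 hr
      exact (hρ t ht).2.2
    · intro r hr q hq e
      obtain ⟨t, ht, rfl⟩ := mem_image.1 hr
      obtain ⟨u, hu, rfl⟩ := mem_image.1 hq
      rw [(hρ t ht).2.1, (hρ u hu).2.1] at e
      rw [e]
  have h2 : tf X (ty (insert p F)) ≤ tau F + 140 * Sp.card := by
    have e : tf X (ty (insert p F)) =
        tf ((X.image (ty F)).biUnion fun t => X.filter fun q => ty F q = t) (ty (insert p F)) := by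
      rw [image_biUnion_filter_eq]
    rw [e]
    refine (tf_biUnion _ _ _).trans ?_
    rw [hSp, card_filter, mul_sum, tau_eq, tf, ← sum_add_distrib]
    refine sum_le_sum fun t _ => ?_
    have a1 := tf_le_card (X.filter fun q => ty F q = t) (ty (insert p F))
    have a2 := tf_le_mul (X.filter fun q => ty F q = t) (ty (insert p F))
    have a3 := card_image_le_two (F := F) (Y := X.filter fun q => ty F q = t) p fun r hr q hq =>
      (mem_filter.1 hr).2.trans (mem_filter.1 hq).2.symm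
    rw [← hX]
    split_ifs with c <;> omega
  have h3 := tf_union (sepW (insert p F) \ X) X (ty (insert p F))
  rw [sdiff_union_of_subset hsub, ← tau_eq] at h3
  omega

end TauP

theorem tauS (h4 : T4S) (h44 : K44S) : TauS := by
  refine ⟨1960, fun F => ?_⟩
  induction F using Finset.induction_on with
  | empty => simp [tau, sepW]
  | insert p F hp ih =>
    have := TauP.tau_insert h4 h44 F p
    rw [Finset.card_insert_of_notMem hp]
    omega

end Pool.Agent.MP_df844f_gt
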