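import Pool.Agent.MP_df844f_gt.w.Fact
import Pool.Agent.MP_df844f_gt.w.K44
import Pool.Agent.MP_df844f_gt.w.Small
import Pool.Agent.MP_df844f_gt.w.Hull
import Pool.Agent.MP_df844f_gt.w.CloseD
import Pool.Agent.MP_df844f_gt.w.H1
import Pool.Agent.MP_df844f_gt.w.H2
import Pool.Agent.MP_df844f_gt.w.Fill
import Pool.Agent.MP_df844f_gt.w.GCvx
import Pool.Agent.MP_df844f_gt.w.GJoin
import Pool.Agent.MP_df844f_gt.w.Tau
import Pool.Agent.MP_df844f_gt.w.Cut
import Pool.Agent.MP_df844f_gt.w.Q

/-! All statements of `SpecW`, free of hypotheses. -/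

namespace Pool.Agent.MP_df844f_gt.WAll

theorem factA : FactS := fact
theorem t4A : T4S := t4 fact
theorem k44A : K44S := k44 fact t4A
theorem ballA : BallS := ball
theorem hullA : HullS := hullS fact k44A ball
theorem closeDA : CloseDS := closeD t4A
theorem sp1A : SP1S := sp1
theorem dehnA : DehnS := dehn k44A
theorem h1A : H1S := h1
theorem h2A : H2S := h2
theorem fillA : FillS := fill fact
theorem gcvxA : GCvxS := gcvx h1 sp1
theorem gjoinA : GJoinS := gjoin
theorem tauA : TauS := tauS t4A k44A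
theorem cutExA : CutExS := cutEx
theorem cutSPA : CutSPS := cutSP k44A closeDA
theorem cutTauA : CutTauS := cutTau k44A
theorem qA : QS := qS hullA gcvxA gjoin tauA cutEx cutSPA cutTauA

end Pool.Agent.MP_df844f_gt.WAll
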