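import Pool.Agent.MP_df844f_gt.SpecW

/-! Finite facts on the icosahedron graph. -/

namespace Pool.Agent.MP_df844f_gt

namespace FactR

/-- Every entry is related to a later entry. -/
def Chn {α : Type} (R : α → α → Prop) : List α → Prop
  | [] => True
  | v :: l => Chn R l ∧ (l.isEmpty = true ∨ ∃ u ∈ l, R v u)

instance decChn {α : Type} (R : α → α → Prop) [DecidableRel R] : ∀ l, Decidable (Chn R l)
  | [] => isTrue trivial
  | v :: l =>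
    haveI := decChn R l
    inferInstanceAs (Decidable (Chn R l ∧ (l.isEmpty = true ∨ ∃ u ∈ l, R v u)))

theorem conn_of_chn {α : Type} {R : α → α → Prop} (hR : ∀ a b, R a b → R b a) :
    ∀ l : List α, Chn R l → ∀ s ∈ l, ∀ t ∈ l, Relation.ReflTransGen R s t
  | [], _ => by simp
  | v :: l, h => by
    have ih := conn_of_chn hR l h.1
    intro s hs t ht
    rcases h.2 with h0 | ⟨u, hu, hv⟩
    · rw [List.isEmpty_iff] at h0
      subst h0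
      rw [List.mem_singleton] at hs ht
      rw [hs, ht]
    · rcases List.mem_cons.1 hs with e | hs' <;> rcases List.mem_cons.1 ht with e' | ht'
      · rw [e, e']
      · rw [e]; exact .head hv (ih u hu t ht')
      · rw [e']; exact .tail (ih s hs' u hu) (hR _ _ hv)
      · exact ih s hs' t ht'

/-- The later neighbours of each entry are within two steps of one of them. -/
def Shl : List S → Prop
  | [] => True
  | v :: l => Shl l ∧ v ∉ l ∧ (l.isEmpty = true ∨ ∃ u ∈ nb v, u ∈ l ∧ ∀ w ∈ nb v, w ∈ l →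
      ∃ x ∈ nb v, x ∈ l ∧ (x = u ∨ adj u x) ∧ (x = w ∨ adj x w))

instance decShl : ∀ l, Decidable (Shl l)
  | [] => isTrue trivial
  | v :: l =>
    haveI := decShl l
    inferInstanceAs (Decidable (Shl l ∧ v ∉ l ∧ (l.isEmpty = true ∨ ∃ u ∈ nb v, u ∈ l ∧
      ∀ w ∈ nb v, w ∈ l → ∃ x ∈ nb v, x ∈ l ∧ (x = u ∨ adj u x) ∧ (x = w ∨ adj x w))))

theorem chn_of_shl (J : Finset S) : ∀ l, Shl l → (∀ s ∈ l, s ∉ J) →
    Chn (fun a b => a ∉ J ∧ b ∉ J ∧ adj a b) l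
  | [], _, _ => trivial
  | v :: l, h, hJ => by
    refine ⟨chn_of_shl J l h.1 fun s hs => hJ s (List.mem_cons_of_mem _ hs), ?_⟩
    rcases h.2.2 with h0 | ⟨u, hu, hul, -⟩
    · exact Or.inl h0
    · exact Or.inr ⟨u, hul, hJ v List.mem_cons_self, hJ u (List.mem_cons_of_mem _ hul), hu⟩

theorem f2a : ∀ a b c : F2, a + b + c = 0 → c = a + b := by decide

theorem f2b : ∀ a b c : F2, a + (b + c) = b + a + c := by decide

theorem f2c : ∀ a : F2, ∀ b, a = b + a + b := by decide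

theorem f2d : ∀ a b c : F2, a + b + (b + c) = a + c := by decide

theorem cob (c : S → S → F2) (hs : ∀ s t, c s t = c t s) : ∀ l, Shl l →
    (∀ s ∈ l, ∀ t ∈ l, ∀ u ∈ l, adj s t → adj t u → adj s u → c s t + c t u + c s u = 0) →
    ∃ φ : S → F2, ∀ s ∈ l, ∀ t ∈ l, adj s t → c s t = φ s + φ t
  | [], _, _ => ⟨0, by simp⟩
  | v :: l, h, hc => by
    have m : ∀ {s}, s ∈ l → s ∈ v :: l := fun k => List.mem_cons_of_mem _ k
    obtain ⟨φ, hφ⟩ := cob c hs l h.1 fun s a t b u d => hc s (m a) t (m b) u (m d)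
    have key : ∃ y : F2, ∀ w ∈ l, adj v w → c v w = y + φ w := by
      rcases h.2.2 with h0 | ⟨u, hu, hul, hw⟩
      · rw [List.isEmpty_iff] at h0
        subst h0
        exact ⟨0, by simp⟩
      · refine ⟨φ u + c v u, fun w hwl hvw => ?_⟩
        obtain ⟨x, hx, hxl, h1, h2⟩ := hw w hvw hwl
        have e1 : c v x = φ u + c v u + φ x := by
          rcases h1 with rfl | h1
          · exact f2c _ _
          · rw [f2a _ _ _ (hc v List.mem_cons_self u (m hul) x (m hxl) hu h1 hx),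
              hφ u hul x hxl h1]
            exact f2b _ _ _
        rcases h2 with rfl | h2
        · exact e1
        · rw [f2a _ _ _ (hc v List.mem_cons_self x (m hxl) w (m hwl) hx h2 hvw),
            hφ x hxl w hwl h2, e1]
          exact f2d _ _ _
    obtain ⟨y, hy⟩ := key
    have ne : ∀ {s}, s ∈ l → s ≠ v := fun k e => h.2.1 (e ▸ k)
    refine ⟨Function.update φ v y, fun s hs' t ht a => ?_⟩
    rcases List.mem_cons.1 hs' with e | h1 <;> rcases List.mem_cons.1 ht with e' | h2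
    · rw [e, e'] at a
      exact absurd a (adj_irrefl _)
    · rw [e] at a ⊢
      rw [Function.update_self, Function.update_of_ne (ne h2)]
      exact hy t h2 a
    · rw [e'] at a ⊢
      rw [Function.update_self, Function.update_of_ne (ne h1), hs, add_comm]
      exact hy s h1 (adj_symm a)
    · rw [Function.update_of_ne (ne h2), Function.update_of_ne (ne h1)]
      exact hφ s h1 t h2 a

/-- For each clique an order of the other vertices. -/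
def tab : List (List S × List S) :=
  [([], [11, 10, 9, 8, 7, 6, 5, 4, 3, 2, 1, 0]),
   ([0], [5, 10, 11, 9, 8, 7, 6, 4, 3, 2, 1]),
   ([1], [7, 11, 10, 9, 8, 6, 5, 4, 3, 2, 0]),
   ([2], [8, 11, 10, 9, 7, 6, 5, 4, 3, 1, 0]),
   ([3], [9, 11, 10, 8, 7, 6, 5, 4, 2, 1, 0]),
   ([4], [10, 11, 9, 8, 7, 6, 5, 3, 2, 1, 0]),
   ([5], [10, 11, 9, 8, 7, 6, 4, 3, 2, 1, 0]),
   ([6], [11, 10, 9, 8, 7, 5, 4, 3, 2, 1, 0]),
   ([7], [11, 10, 9, 8, 6, 5, 4, 3, 2, 1, 0]),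
   ([8], [11, 10, 9, 7, 6, 5, 4, 3, 2, 1, 0]),
   ([9], [11, 10, 8, 7, 6, 5, 4, 3, 2, 1, 0]),
   ([10], [11, 9, 8, 7, 6, 5, 4, 3, 2, 1, 0]),
   ([11], [10, 9, 8, 7, 6, 5, 4, 3, 2, 1, 0]),
   ([0, 1], [7, 11, 10, 9, 8, 6, 5, 4, 3, 2]),
   ([0, 2], [8, 11, 10, 9, 7, 6, 3, 4, 5, 1]),
   ([0, 3], [9, 11, 10, 8, 7, 6, 4, 5, 2, 1]),
   ([0, 4], [10, 11, 9, 8, 7, 6, 5, 3, 2, 1]),
   ([0, 5], [10, 11, 9, 8, 7, 6, 4, 3, 2, 1]),
   ([1, 2], [8, 11, 10, 9, 7, 6, 5, 4, 3, 0]),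
   ([1, 5], [10, 11, 9, 8, 6, 7, 4, 3, 2, 0]),
   ([1, 6], [11, 10, 9, 8, 7, 5, 4, 3, 2, 0]),
   ([1, 7], [11, 10, 9, 8, 6, 5, 4, 3, 2, 0]),
   ([2, 3], [9, 11, 10, 8, 7, 6, 5, 4, 1, 0]),
   ([2, 7], [11, 10, 9, 8, 6, 5, 4, 3, 1, 0]),
   ([2, 8], [11, 10, 9, 7, 6, 5, 4, 3, 1, 0]),
   ([3, 4], [10, 11, 9, 8, 7, 6, 5, 2, 1, 0]),
   ([3, 8], [11, 10, 9, 7, 6, 5, 4, 2, 1, 0]),
   ([3, 9], [11, 10, 8, 7, 6, 5, 4, 2, 1, 0]),
   ([4, 5], [10, 11, 9, 8, 7, 6, 3, 2, 1, 0]),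
   ([4, 9], [11, 10, 8, 7, 6, 5, 3, 2, 1, 0]),
   ([4, 10], [11, 9, 8, 7, 6, 5, 3, 2, 1, 0]),
   ([5, 6], [11, 10, 9, 8, 7, 4, 3, 2, 1, 0]),
   ([5, 10], [11, 9, 8, 7, 6, 4, 3, 2, 1, 0]),
   ([6, 7], [11, 10, 9, 8, 5, 4, 3, 2, 1, 0]),
   ([6, 10], [11, 9, 8, 7, 5, 4, 3, 2, 1, 0]),
   ([6, 11], [10, 9, 8, 7, 5, 4, 3, 2, 1, 0]),
   ([7, 8], [11, 10, 9, 6, 5, 4, 3, 2, 1, 0]),
   ([7, 11], [10, 9, 8, 6, 5, 4, 3, 2, 1, 0]),
   ([8, 9], [11, 10, 7, 6, 5, 4, 3, 2, 1, 0]),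
   ([8, 11], [10, 9, 7, 6, 5, 4, 3, 2, 1, 0]),
   ([9, 10], [11, 8, 7, 6, 5, 4, 3, 2, 1, 0]),
   ([9, 11], [10, 8, 7, 6, 5, 4, 3, 2, 1, 0]),
   ([10, 11], [9, 8, 7, 6, 5, 4, 3, 2, 1, 0]),
   ([0, 1, 2], [8, 11, 10, 9, 7, 6, 5, 4, 3]),
   ([0, 1, 5], [10, 11, 9, 8, 6, 7, 4, 3, 2]),
   ([0, 2, 3], [9, 11, 10, 8, 7, 6, 4, 5, 1]),
   ([0, 3, 4], [10, 11, 9, 8, 7, 6, 5, 2, 1]),
   ([0, 4, 5], [10, 11, 9, 8, 7, 6, 3, 2, 1]),
   ([1, 2, 7], [11, 10, 9, 8, 6, 5, 4, 3, 0]),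
   ([1, 5, 6], [11, 10, 9, 8, 7, 4, 3, 2, 0]),
   ([1, 6, 7], [11, 10, 9, 8, 5, 4, 3, 2, 0]),
   ([2, 3, 8], [11, 10, 9, 7, 6, 5, 4, 1, 0]),
   ([2, 7, 8], [11, 10, 9, 6, 5, 4, 3, 1, 0]),
   ([3, 4, 9], [11, 10, 8, 7, 6, 5, 2, 1, 0]),
   ([3, 8, 9], [11, 10, 7, 6, 5, 4, 2, 1, 0]),
   ([4, 5, 10], [11, 9, 8, 7, 6, 3, 2, 1, 0]),
   ([4, 9, 10], [11, 8, 7, 6, 5, 3, 2, 1, 0]),
   ([5, 6, 10], [11, 9, 8, 7, 4, 3, 2, 1, 0]),
   ([6, 7, 11], [10, 9, 8, 5, 4, 3, 2, 1, 0]),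
   ([6, 10, 11], [9, 8, 7, 5, 4, 3, 2, 1, 0]),
   ([7, 8, 11], [10, 9, 6, 5, 4, 3, 2, 1, 0]),
   ([8, 9, 11], [10, 7, 6, 5, 4, 3, 2, 1, 0]),
   ([9, 10, 11], [8, 7, 6, 5, 4, 3, 2, 1, 0])]

/-- The triangles, each one sharing an edge with a later one. -/
def tl : List (Finset S) :=
  [{9, 10, 11}, {8, 9, 11}, {7, 8, 11}, {6, 10, 11}, {6, 7, 11}, {5, 6, 10}, {4, 9, 10},
   {4, 5, 10}, {3, 8, 9}, {3, 4, 9}, {2, 7, 8}, {2, 3, 8}, {1, 6, 7}, {1, 5, 6},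
   {1, 2, 7}, {0, 4, 5}, {0, 3, 4}, {0, 2, 3}, {0, 1, 5}, {0, 1, 2}]

theorem tab_ok : ∀ p ∈ tab, Shl p.2 ∧ ∀ s, s ∈ p.2 ↔ s ∉ p.1 := by decide +kernel

theorem tab_all : ∀ a b : S, (a = b ∨ adj a b) → ∀ c : S, (a = c ∨ adj a c) → (b = c ∨ adj b c) →
    ∃ p ∈ tab, ∀ s, s ∈ p.1 ↔ (s = a ∨ s = b ∨ s = c) := by decide +kernel

theorem no4 : ∀ s t : S, adj s t → ∀ u, adj s u → adj t u → ∀ v, adj s v → adj t v →
    ¬ adj u v := by decide +kernel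

theorem clq (J : Finset S) (h : Clq J) : J.card ≤ 3 := by
  by_contra hc
  obtain ⟨a, ha, b, hb, c, hc, d, hd, h1, h2, h3, h4, h5, h6⟩ :=
    Finset.three_lt_card.1 (not_le.1 hc)
  exact no4 a b (h a ha b hb h1) c (h a ha c hc h2) (h b hb c hc h4) d (h a ha d hd h3)
    (h b hb d hd h5) (h c hc d hd h6)

theorem order (J : Finset S) (h : Clq J) : ∃ l, Shl l ∧ ∀ s, s ∈ l ↔ s ∉ J := by
  have k : ∀ a b c : S, (∀ s, s ∈ J ↔ (s = a ∨ s = b ∨ s = c)) →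
      ∃ l, Shl l ∧ ∀ s, s ∈ l ↔ s ∉ J := by
    intro a b c e
    have ha := (e a).2 (Or.inl rfl)
    have hb := (e b).2 (Or.inr (Or.inl rfl))
    have hc := (e c).2 (Or.inr (Or.inr rfl))
    obtain ⟨p, hp, e'⟩ := tab_all a b (or_iff_not_imp_left.2 (h a ha b hb)) c
      (or_iff_not_imp_left.2 (h a ha c hc)) (or_iff_not_imp_left.2 (h b hb c hc))
    exact ⟨p.2, (tab_ok p hp).1, fun s => by rw [(tab_ok p hp).2, e', e]⟩
  have h3 := clq J h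
  obtain h0 | h0 | h0 | h0 : J.card = 0 ∨ J.card = 1 ∨ J.card = 2 ∨ J.card = 3 := by omega
  · rw [Finset.card_eq_zero] at h0
    subst h0
    have := tab_ok _ (List.mem_cons_self : _ ∈ tab)
    exact ⟨_, this.1, fun s => by rw [this.2]; simp⟩
  · obtain ⟨a, rfl⟩ := Finset.card_eq_one.1 h0
    exact k a a a (by simp)
  · obtain ⟨a, b, -, rfl⟩ := Finset.card_eq_two.1 h0
    exact k a b b (by simp)
  · obtain ⟨a, b, c, -, -, -, rfl⟩ := Finset.card_eq_three.1 h0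
    exact k a b c (by simp)

theorem tl_ok : Chn
    (fun a b : Finset S => a.card = 3 ∧ Clq a ∧ b.card = 3 ∧ Clq b ∧ (a ∩ b).card = 2) tl := by
  decide +kernel

theorem tl_all : ∀ a b : S, adj a b → ∀ c : S, adj a c → adj b c →
    ({a, b, c} : Finset S) ∈ tl := by decide +kernel

theorem mem_tl (J : Finset S) (h3 : J.card = 3) (h : Clq J) : J ∈ tl := by
  obtain ⟨a, b, c, h1, h2, h4, rfl⟩ := Finset.card_eq_three.1 h3
  exact tl_all a b (h a (by simp) b (by simp) h1) c (h a (by simp) c (by simp) h2)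
    (h b (by simp) c (by simp) h4)

theorem cnt (k : ℕ) : (Finset.univ.filter fun J : Finset S => J.card = k ∧ Clq J) =
    (Finset.powersetCard k Finset.univ).filter Clq := by
  ext J
  simp [Finset.mem_powersetCard]

theorem nosq : ∀ s t : S, adj s t → ∀ u, adj t u → ∀ v, adj u v → adj v s → s ≠ u → t ≠ v →
    adj s u ∨ adj t v := by decide +kernel

theorem pent : ∀ s t : S, adj s t → ∀ u, adj s u →
    ∃ v, adj s v ∧ (t = v ∨ adj t v) ∧ (v = u ∨ adj v u) := by decide +kernel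

theorem two : ∀ s t : S, adj s t → ∃ u, adj s u ∧ ∃ v, u ≠ v ∧
    ∀ x, (adj s x ∧ adj t x) ↔ (x = u ∨ x = v) := by decide +kernel

end FactR

open FactR in
theorem fact : FactS where
  clq := clq
  nosq := fun s t u v a b => nosq s t a u b v
  deg := by decide +kernel
  two := fun s t a => by
    obtain ⟨u, -, v, h⟩ := two s t a
    exact ⟨u, v, h⟩
  n2 := by rw [cnt]; decide +kernel
  n3 := by rw [cnt]; decide +kernel
  conn := fun J h s hs t ht => by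
    obtain ⟨l, h1, h2⟩ := order J h
    exact conn_of_chn (fun a b k => ⟨k.2.1, k.1, adj_symm k.2.2⟩) l
      (chn_of_shl J l h1 fun s k => (h2 s).1 k) s ((h2 s).2 hs) t ((h2 t).2 ht)
  h1 := fun J h c hs hc => by
    obtain ⟨l, h1, h2⟩ := order J h
    obtain ⟨φ, hφ⟩ := cob c hs l h1 fun s a t b u d =>
      hc s ((h2 s).1 a) t ((h2 t).1 b) u ((h2 u).1 d)
    exact ⟨φ, fun s a t b => hφ s ((h2 s).2 a) t ((h2 t).2 b)⟩
  tri := fun J J' a b c d =>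
    conn_of_chn (fun x y k => ⟨k.2.2.1, k.2.2.2.1, k.1, k.2.1, by
      rw [Finset.inter_comm]; exact k.2.2.2.2⟩) tl tl_ok J (mem_tl J a b) J' (mem_tl J' c d)
  pent := fun s t u a => pent s t a u

end Pool.Agent.MP_df844f_gt
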