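import Pool.Agent.MP_df844f_gt.SpecW

namespace Pool.Agent.MP_df844f_gt

theorem Cross.side {r q : W} (h : Cross r q) (P Q : Prop) :
    ∃ x, (r ∈ N x ↔ P) ∧ (q ∈ N x ↔ Q) := by
  obtain ⟨⟨a, ha⟩, ⟨b, hb⟩, ⟨c, hc⟩, ⟨e, he⟩⟩ := h
  by_cases hP : P <;> by_cases hQ : Q
  · exact ⟨a, by tauto⟩
  · exact ⟨b, by tauto⟩
  · exact ⟨c, by tauto⟩
  · exact ⟨e, by tauto⟩

/-- Helly property for half spaces. -/
theorem helly (ε : W → Prop) : ∀ (n : ℕ) (C : Finset W), C.card = n →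
    (∀ r ∈ C, ∀ q ∈ C, ∃ x, (r ∈ N x ↔ ε r) ∧ (q ∈ N x ↔ ε q)) → ∃ x, ∀ r ∈ C, (r ∈ N x ↔ ε r) := by
  intro n
  induction n using Nat.strong_induction_on with
  | _ n ih =>
    intro C hn h
    by_cases h3 : 2 < C.card
    · obtain ⟨a, b, c, ha, hb, hc, hab, hac, hbc⟩ := Finset.two_lt_card_iff.1 h3
      have key : ∀ u ∈ C, ∃ x, ∀ r ∈ C.erase u, (r ∈ N x ↔ ε r) := fun u hu =>
        ih _ (by rw [← hn]; exact Finset.card_erase_lt_of_mem hu) _ rfl fun r hr q hq =>
          h r (Finset.mem_of_mem_erase hr) q (Finset.mem_of_mem_erase hq)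
      obtain ⟨x, hx⟩ := key a ha
      obtain ⟨y, hy⟩ := key b hb
      obtain ⟨z, hz⟩ := key c hc
      obtain ⟨m, hm⟩ := exists_med x y z
      refine ⟨m, fun r hr => ?_⟩
      have h0 := hm r
      have h1 := fun k => hx r (Finset.mem_erase.2 ⟨k, hr⟩)
      have h2 := fun k => hy r (Finset.mem_erase.2 ⟨k, hr⟩)
      have h4 := fun k => hz r (Finset.mem_erase.2 ⟨k, hr⟩)
      by_cases ea : r = a
      · have := h2 (ea ▸ hab); have := h4 (ea ▸ hac); tauto
      · by_cases eb : r = b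
        · have := h1 ea; have := h4 (eb ▸ hbc); tauto
        · have := h1 ea; have := h2 eb; tauto
    · rcases C.eq_empty_or_nonempty with rfl | ⟨a, ha⟩
      · exact ⟨1, by simp⟩
      by_cases h2 : ∃ b ∈ C, b ≠ a
      · obtain ⟨b, hb, hba⟩ := h2
        obtain ⟨x, h4, h5⟩ := h a ha b hb
        refine ⟨x, fun r hr => ?_⟩
        by_cases ea : r = a
        · rw [ea]; exact h4
        by_cases eb : r = b
        · rw [eb]; exact h5
        exact absurd (Finset.two_lt_card_iff.2 ⟨r, a, b, hr, ha, hb, ea, eb, hba.symm⟩) h3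
      · obtain ⟨x, h4, _⟩ := h a ha a ha
        refine ⟨x, fun r hr => ?_⟩
        have : r = a := by by_contra k; exact h2 ⟨r, hr, k⟩
        rw [this]; exact h4

theorem clq_desc (b x : W) (J : Finset S) (h : ∀ s ∈ J, Desc b x s) : Clq J :=
  fun s hs t ht k => desc_adj (h s hs) (h t ht) k

theorem t4 (hF : FactS) : T4S := by
  classical
  intro C hC
  by_contra h4
  have all : ∀ ε : W → Prop, ∃ x, ∀ r ∈ C, (r ∈ N x ↔ ε r) := by
    intro ε
    refine helly ε _ C rfl fun r hr q hq => ?_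
    by_cases e : r = q
    · subst e
      obtain ⟨q, hq, hne⟩ := Finset.exists_mem_ne (s := C) (by omega) r
      obtain ⟨x, h1, _⟩ := (hC r hr q hq hne.symm).side (ε r) True
      exact ⟨x, h1, h1⟩
    · exact (hC r hr q hq e).side _ _
  have ex : ∃ n, ∃ x, d 1 x = n ∧ ∀ r ∈ C, r ∈ N x := by
    obtain ⟨x, hx⟩ := all fun _ => True
    exact ⟨_, x, rfl, fun r hr => (hx r hr).2 trivial⟩
  obtain ⟨x, hx1, hx2⟩ := Nat.find_spec ex
  have key : ∀ r ∈ C, ∃ s, Desc 1 x s ∧ wall s x = r := by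
    intro r hr
    obtain ⟨y, hy⟩ := all fun q => q ≠ r
    have hn : ¬ Sep 1 x ⊆ Sep 1 y := by
      rw [Sep_one, Sep_one]
      intro k
      exact (hy r hr).1 (k (hx2 r hr)) rfl
    obtain ⟨s, h1, h2⟩ := exists_desc_of_not_btw hn
    refine ⟨s, desc_iff.2 h1, ?_⟩
    by_contra hne
    have hd := d_step_of_mem h1
    refine Nat.find_min ex (m := d 1 (g s * x)) (by omega) ⟨g s * x, rfl, fun q hq => ?_⟩
    rw [mem_N_g_mul]
    have : q ≠ wall s x := by
      intro e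
      rw [Sep_one, ← e] at h2
      exact h2 ((hy q hq).2 (e ▸ hne))
    simp [hx2 q hq, this]
  have hJ := hF.clq (Finset.univ.filter fun s => Desc 1 x s)
    (clq_desc 1 x _ fun s hs => (Finset.mem_filter.1 hs).2)
  have : C ⊆ (Finset.univ.filter fun s => Desc 1 x s).image fun s => wall s x := by
    intro r hr
    obtain ⟨s, h1, h2⟩ := key r hr
    exact Finset.mem_image.2 ⟨s, Finset.mem_filter.2 ⟨Finset.mem_univ _, h1⟩, h2⟩
  have := (Finset.card_le_card this).trans Finset.card_image_le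
  omega

end Pool.Agent.MP_df844f_gt
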